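import Pool.Agent.TDK.Reduce

set_option autoImplicit false
set_option linter.unusedSectionVars false
set_option linter.unusedSimpArgs false

namespace Pool.Agent.TDK

open Finset

variable {V : Type*} [Fintype V] [DecidableEq V] {m m' : V → V → ℕ} {χ : V → Bool}

/-- The statement to be proved. -/
def PP (m : V → V → ℕ) : Prop := ∃ χ : V → Bool, Bal χ ∧ Good m χ

theorem sum_ite_self (x : V) : ∑ p : V, (if p = x then 1 else 0 : ℕ) = 1 := by simp

/-- Add an edge between two deficient vertices. -/
theorem step_add (hm : MG m) {x y : V} (hxy : x ≠ y) (hx : dg m x ≤ 2) (hy : dg m y ≤ 2) :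
    ∃ m' : V → V → ℕ, MG m' ∧ mu m' < mu m ∧ (PP m' → PP m) := by
  have hdg : ∀ p, dg (fun p q => m p q + dl x y p q) p =
      dg m p + ((if p = x then 1 else 0) + (if p = y then 1 else 0)) := by
    intro p
    unfold dg
    rw [Finset.sum_add_distrib, sum_dl hxy]
  have hm' : MG (fun p q => m p q + dl x y p q) := by
    refine ⟨fun p q => ?_, fun p => ?_, fun p => ?_⟩
    · show m p q + dl x y p q = m q p + dl x y q p
      rw [hm.symm p q, dl_symm]
    · show m p p + dl x y p p = 0
      rw [hm.irr, dl_self hxy]
    · rw [hdg]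
      by_cases h1 : p = x
      · subst h1; simp [hxy]; omega
      · by_cases h2 : p = y
        · subst h2; simp [h1]; omega
        · simp [h1, h2]; exact hm.deg p
  refine ⟨_, hm', ?_, ?_⟩
  · refine mu_lt_of_sum hm' (Finset.card_le_card (Tr_mono hm' fun p q h => ?_)) ?_
    · omega
    · simp only [hdg]
      rw [Finset.sum_add_distrib, Finset.sum_add_distrib, sum_ite_self, sum_ite_self]
      omega
  · rintro ⟨χ, hb, hg⟩
    exact ⟨χ, hb, hg.mono hm fun p q => Nat.le_add_right _ _⟩

theorem triple_zero (hm : MG m) {b u q : V} (h : m b u = 3) (hq : q ≠ u) : m b q = 0 := by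
  have h1 := two_le_sum (m b) hq
  have h2 := hm.deg b
  unfold dg at h2
  omega

theorem inn_triple (hm : MG m) {b u : V} (h : m b u = 3) (hχ : χ b ≠ χ u) : inn m χ b = 0 := by
  unfold inn
  refine Finset.sum_eq_zero fun y _ => ?_
  by_cases hy : y = u
  · subst hy
    rw [if_neg hχ.symm]
  · rw [triple_zero hm h hy]
    simp

theorem not_mem_Tr (hm : MG m) {b u : V} (h : m b u = 2) : b ∉ Tr m := by
  unfold Tr
  rw [Finset.mem_filter]
  rintro ⟨_, y, hy⟩
  by_cases hyu : y = u
  · subst hyu; omega
  · have h1 := two_le_sum (m b) hyu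
    have h2 := hm.deg b
    unfold dg at h2
    omega

/-- Switch: `b' - b = u - w` with `b' ≠ w`. -/
theorem step_switch (hm : MG m) {b u b' w : V} (hbu : m b u = 2) (hbb' : m b b' = 1)
    (huw : m u w = 1) (hb'w : b' ≠ w) :
    ∃ m' : V → V → ℕ, MG m' ∧ mu m' < mu m ∧ (PP m' → PP m) := by
  have n1 : b ≠ u := by
    rintro rfl; rw [hm.irr] at hbu; omega
  have n2 : b ≠ b' := by
    rintro rfl; rw [hm.irr] at hbb'; omega
  have n3 : u ≠ w := by
    rintro rfl; rw [hm.irr] at huw; omega
  have n4 : b' ≠ u := by
    rintro rfl; omega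
  have n5 : w ≠ b := by
    rintro rfl; rw [hm.symm] at huw; omega
  have hle : ∀ p q, dl b b' p q + dl u w p q ≤ m p q := by
    intro p q
    by_cases h1 : dl b b' p q = 0
    · by_cases h2 : dl u w p q = 0
      · omega
      · have h3 := dl_le u w p q
        have h4 : m p q = 1 := by
          rcases dl_ne h2 with ⟨rfl, rfl⟩ | ⟨rfl, rfl⟩
          · exact huw
          · rw [hm.symm]; exact huw
        omega
    · have h3 := dl_le b b' p q
      have h4 : m p q = 1 := by
        rcases dl_ne h1 with ⟨rfl, rfl⟩ | ⟨rfl, rfl⟩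
        · exact hbb'
        · rw [hm.symm]; exact hbb'
      have h5 : dl u w p q = 0 := by
        by_contra h2
        rcases dl_ne h1 with ⟨rfl, rfl⟩ | ⟨rfl, rfl⟩ <;>
          rcases dl_ne h2 with ⟨h6, h7⟩ | ⟨h6, h7⟩
        · exact n1 h6
        · exact n5 h6.symm
        · exact n4 h6
        · exact n1 h7
      omega
  set m' : V → V → ℕ := fun p q => m p q + dl b u p q + dl b' w p q - (dl b b' p q + dl u w p q)
    with hm'def
  have hid : ∀ p q, m' p q + (dl b b' p q + dl u w p q) = m p q + dl b u p q + dl b' w p q := by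
    intro p q
    have := hle p q
    simp only [hm'def]
    omega
  have hdg : ∀ p, dg m' p = dg m p := by
    intro p
    have h1 : ∑ q, (m' p q + (dl b b' p q + dl u w p q)) =
        ∑ q, (m p q + dl b u p q + dl b' w p q) := Finset.sum_congr rfl fun q _ => hid p q
    rw [Finset.sum_add_distrib, Finset.sum_add_distrib, Finset.sum_add_distrib,
      Finset.sum_add_distrib, sum_dl n2, sum_dl n3, sum_dl n1, sum_dl hb'w] at h1
    unfold dg
    omega
  have hm' : MG m' := by
    refine ⟨fun p q => ?_, fun p => ?_, fun p => ?_⟩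
    · have h1 := hid p q
      have h2 := hid q p
      rw [dl_symm b b' q p, dl_symm u w q p, dl_symm b u q p, dl_symm b' w q p, hm.symm q p] at h2
      omega
    · have h1 := hid p p
      rw [dl_self n2, dl_self n3, dl_self n1, dl_self hb'w, hm.irr] at h1
      omega
    · rw [hdg]; exact hm.deg p
  have hbu3 : m' b u = 3 := by
    have h1 := hid b u
    have e1 : dl b b' b u = 0 := by
      by_contra h
      rcases dl_ne h with ⟨_, h⟩ | ⟨h, _⟩
      · exact n4 h.symm
      · exact n2 h
    have e2 : dl u w b u = 0 := by
      by_contra h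
      rcases dl_ne h with ⟨h, _⟩ | ⟨h, _⟩
      · exact n1 h
      · exact n5 h.symm
    have e3 : dl b u b u = 1 := by unfold dl; simp
    have e4 : dl b' w b u = 0 := by
      by_contra h
      rcases dl_ne h with ⟨h, _⟩ | ⟨h, _⟩
      · exact n2 h
      · exact n5 h.symm
    omega
  have hub3 : m' u b = 3 := by rw [hm'.symm]; exact hbu3
  refine ⟨m', hm', mu_lt_of_Tr ?_, ?_⟩
  · refine Finset.card_lt_card ?_
    rw [Finset.ssubset_iff_of_subset]
    · refine ⟨b, ?_, not_mem_Tr hm hbu⟩
      unfold Tr
      rw [Finset.mem_filter]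
      exact ⟨Finset.mem_univ _, u, hbu3⟩
    · refine Tr_mono hm' fun p q h => ?_
      have h1 := hid p q
      have h2 : dl b b' p q = 0 := by
        by_contra h0
        rcases dl_ne h0 with ⟨rfl, rfl⟩ | ⟨rfl, rfl⟩
        · omega
        · rw [hm.symm] at h; omega
      have h3 : dl u w p q = 0 := by
        by_contra h0
        rcases dl_ne h0 with ⟨rfl, rfl⟩ | ⟨rfl, rfl⟩
        · omega
        · rw [hm.symm] at h; omega
      omega
  · rintro ⟨χ0, hb0, hg0⟩
    obtain ⟨χ, hb, hg, hχbb'⟩ : ∃ χ : V → Bool, Bal χ ∧ Good m' χ ∧ χ b ≠ χ b' := by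
      by_cases h : χ0 b = χ0 b'
      · refine ⟨sw χ0 b u, hb0.sw b u, hg0.swap_triple hm' hbu3, ?_⟩
        rw [sw_left, sw_of_ne χ0 n2.symm n4, ← h]
        intro h2
        have := hg0.simple b u h2
        omega
      · exact ⟨χ0, hb0, hg0, h⟩
    have hχbu : χ b ≠ χ u := by
      intro h
      have := hg.simple b u h.symm
      omega
    have hub' : χ u = χ b' := by
      revert hχbb' hχbu
      cases χ b <;> cases χ u <;> cases χ b' <;> simp
    refine ⟨χ, hb, ?_⟩
    have hside : ∀ p q, χ q = χ p → m' p q + dl u w p q = m p q + dl b' w p q := by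
      intro p q hpq
      have h1 := hid p q
      have h2 : dl b b' p q = 0 := by
        by_contra h0
        rcases dl_ne h0 with ⟨rfl, rfl⟩ | ⟨rfl, rfl⟩
        · exact hχbb' hpq.symm
        · exact hχbb' hpq
      have h3 : dl b u p q = 0 := by
        by_contra h0
        rcases dl_ne h0 with ⟨rfl, rfl⟩ | ⟨rfl, rfl⟩
        · exact hχbu hpq.symm
        · exact hχbu hpq
      omega
    by_cases hbw : χ b' = χ w
    · -- one edge inside
      have hsum : ∀ (x y : V), x ≠ y → χ x = χ y → ∀ p,
          (∑ q, if χ q = χ p then dl x y p q else 0) =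
            (if p = x then 1 else 0) + (if p = y then 1 else 0) := by
        intro x y hxy hχ p
        rw [← sum_dl hxy p]
        refine Finset.sum_congr rfl fun q _ => ?_
        by_cases h : χ q = χ p
        · rw [if_pos h]
        · rw [if_neg h]
          by_contra h0
          rcases dl_ne (Ne.symm h0) with ⟨rfl, rfl⟩ | ⟨rfl, rfl⟩
          · exact h hχ.symm
          · exact h hχ
      have hinn : ∀ p, inn m' χ p + (if p = u then 1 else 0) =
          inn m χ p + (if p = b' then 1 else 0) := by
        intro p
        have h1 : ∑ q, ((if χ q = χ p then m' p q else 0) +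
            (if χ q = χ p then dl u w p q else 0)) =
            ∑ q, ((if χ q = χ p then m p q else 0) +
            (if χ q = χ p then dl b' w p q else 0)) := by
          refine Finset.sum_congr rfl fun q _ => ?_
          by_cases h : χ q = χ p
          · simp only [if_pos h]
            exact hside p q h
          · simp only [if_neg h]
        rw [Finset.sum_add_distrib, Finset.sum_add_distrib,
          hsum u w n3 (hub'.trans hbw) p, hsum b' w hb'w hbw p] at h1
        unfold inn
        omega
      have hu0 : inn m' χ u = 0 := inn_triple hm' hub3 hχbu.symm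
      have hu1 : inn m χ u = 1 := by
        have := hinn u
        rw [if_pos rfl, if_neg n4.symm, hu0] at this
        omega
      have hother : ∀ p, p ≠ u → inn m χ p ≤ inn m' χ p := by
        intro p hp
        have := hinn p
        rw [if_neg hp] at this
        omega
      refine ⟨?_, ?_, ?_, ?_⟩
      · intro p q hpq
        have h1 := hside p q hpq
        have h2 := hg.simple p q hpq
        by_cases h0 : dl u w p q = 0
        · omega
        · rcases dl_ne h0 with ⟨rfl, rfl⟩ | ⟨rfl, rfl⟩
          · omega
          · rw [hm.symm]; omega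
      · intro p
        by_cases hp : p = u
        · subst hp; omega
        · exact (hother p hp).trans (hg.inn_le p)
      · intro p hp
        have hpu : p ≠ u := by
          rintro rfl; omega
        have hpb' : p ≠ b' := by
          rintro rfl
          have h1 := hinn p
          have h2 := hg.inn_le p
          rw [if_neg hpu, if_pos rfl] at h1
          omega
        by_cases hpw : p = w
        · subst hpw
          exact ⟨u, hub'.trans hbw, by rw [hm.symm]; exact huw, hu1⟩
        · have h2 : inn m' χ p = 2 := by
            have := hinn p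
            rw [if_neg hpu, if_neg hpb'] at this
            omega
          obtain ⟨y, hy, hpy, hy1⟩ := hg.inner p h2
          have hyu : y ≠ u := by
            rintro rfl; omega
          have h3 := hside p y hy
          have h4 : dl u w p y = 0 := by
            by_contra h0
            rcases dl_ne h0 with ⟨h5, _⟩ | ⟨h5, _⟩
            · exact hpu h5
            · exact hpw h5
          have h5 : dl b' w p y = 0 := by
            by_contra h0
            rcases dl_ne h0 with ⟨h5, _⟩ | ⟨h5, _⟩
            · exact hpb' h5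
            · exact hpw h5
          have h6 := hother y hyu
          have h7 := m_le_inn (m := m) hy.symm
          rw [hm.symm y p] at h7
          exact ⟨y, hy, by omega, by omega⟩
      · intro h6 p
        by_cases hp : p = u
        · subst hp; omega
        · exact (hother p hp).trans (hg.six h6 p)
    · -- no edge inside
      refine hg.congr fun p q hpq => ?_
      have h1 := hside p q hpq
      have h2 : dl u w p q = 0 := by
        by_contra h0
        rcases dl_ne h0 with ⟨rfl, rfl⟩ | ⟨rfl, rfl⟩
        · exact hbw (hub'.symm.trans hpq.symm)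
        · exact hbw (hub'.symm.trans hpq)
      have h3 : dl b' w p q = 0 := by
        by_contra h0
        rcases dl_ne h0 with ⟨rfl, rfl⟩ | ⟨rfl, rfl⟩
        · exact hbw hpq.symm
        · exact hbw hpq
      omega

/-- Reduction when `b` has degree two (both edges to `u`). -/
theorem step_deficient (hm : MG m) {b u w : V} (hbu : m b u = 2) (hb2 : dg m b ≤ 2)
    (huw : m u w = 1) : ∃ m' : V → V → ℕ, MG m' ∧ mu m' < mu m ∧ (PP m' → PP m) := by
  have n1 : b ≠ u := by
    rintro rfl; rw [hm.irr] at hbu; omega
  have n3 : u ≠ w := by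
    rintro rfl; rw [hm.irr] at huw; omega
  have n5 : w ≠ b := by
    rintro rfl; rw [hm.symm] at huw; omega
  have hle : ∀ p q, dl u w p q ≤ m p q := by
    intro p q
    by_cases h2 : dl u w p q = 0
    · omega
    · have h3 := dl_le u w p q
      have h4 : m p q = 1 := by
        rcases dl_ne h2 with ⟨rfl, rfl⟩ | ⟨rfl, rfl⟩
        · exact huw
        · rw [hm.symm]; exact huw
      omega
  set m' : V → V → ℕ := fun p q => m p q + dl b u p q - dl u w p q with hm'def
  have hid : ∀ p q, m' p q + dl u w p q = m p q + dl b u p q := by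
    intro p q
    have := hle p q
    simp only [hm'def]
    omega
  have hdg : ∀ p, dg m' p + (if p = w then 1 else 0) = dg m p + (if p = b then 1 else 0) := by
    intro p
    have h1 : ∑ q, (m' p q + dl u w p q) = ∑ q, (m p q + dl b u p q) :=
      Finset.sum_congr rfl fun q _ => hid p q
    rw [Finset.sum_add_distrib, Finset.sum_add_distrib, sum_dl n3, sum_dl n1] at h1
    unfold dg
    omega
  have hm' : MG m' := by
    refine ⟨fun p q => ?_, fun p => ?_, fun p => ?_⟩
    · have h1 := hid p q
      have h2 := hid q p
      rw [dl_symm u w q p, dl_symm b u q p, hm.symm q p] at h2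
      omega
    · have h1 := hid p p
      rw [dl_self n3, dl_self n1, hm.irr] at h1
      omega
    · have h1 := hdg p
      have h2 := hm.deg p
      by_cases hp : p = b
      · subst hp
        rw [if_pos rfl] at h1
        omega
      · rw [if_neg hp] at h1
        omega
  have hbu3 : m' b u = 3 := by
    have h1 := hid b u
    have e2 : dl u w b u = 0 := by
      by_contra h
      rcases dl_ne h with ⟨h, _⟩ | ⟨h, _⟩
      · exact n1 h
      · exact n5 h.symm
    have e3 : dl b u b u = 1 := by unfold dl; simp
    omega
  refine ⟨m', hm', mu_lt_of_Tr ?_, ?_⟩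
  · refine Finset.card_lt_card ?_
    rw [Finset.ssubset_iff_of_subset]
    · refine ⟨b, ?_, not_mem_Tr hm hbu⟩
      unfold Tr
      rw [Finset.mem_filter]
      exact ⟨Finset.mem_univ _, u, hbu3⟩
    · refine Tr_mono hm' fun p q h => ?_
      have h1 := hid p q
      have h3 : dl u w p q = 0 := by
        by_contra h0
        rcases dl_ne h0 with ⟨rfl, rfl⟩ | ⟨rfl, rfl⟩
        · omega
        · rw [hm.symm] at h; omega
      omega
  · rintro ⟨χ0, hb0, hg0⟩
    have h0bu : χ0 b ≠ χ0 u := by
      intro h
      have := hg0.simple b u h.symm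
      omega
    obtain ⟨χ, hb, hg, hχuw⟩ : ∃ χ : V → Bool, Bal χ ∧ Good m' χ ∧ χ u ≠ χ w := by
      by_cases h : χ0 u = χ0 w
      · refine ⟨sw χ0 b u, hb0.sw b u, hg0.swap_triple hm' hbu3, ?_⟩
        rw [sw_right, sw_of_ne χ0 n5 n3.symm, ← h]
        exact h0bu
      · exact ⟨χ0, hb0, hg0, h⟩
    have hχbu : χ b ≠ χ u := by
      intro h
      have := hg.simple b u h.symm
      omega
    refine ⟨χ, hb, hg.congr fun p q hpq => ?_⟩
    have h1 := hid p q
    have h2 : dl u w p q = 0 := by
      by_contra h0
      rcases dl_ne h0 with ⟨rfl, rfl⟩ | ⟨rfl, rfl⟩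
      · exact hχuw hpq.symm
      · exact hχuw hpq
    have h3 : dl b u p q = 0 := by
      by_contra h0
      rcases dl_ne h0 with ⟨rfl, rfl⟩ | ⟨rfl, rfl⟩
      · exact hχbu hpq.symm
      · exact hχbu hpq
    omega

theorem third (hm : MG m) {u b : V} (hub : m u b = 2) (h3 : 3 ≤ dg m u) :
    ∃ w, m u w = 1 := by
  have h1 := hm.deg u
  unfold dg at h1 h3
  rw [← Finset.add_sum_erase _ _ (Finset.mem_univ b), hub] at h1 h3
  have h2 : ∑ x ∈ univ.erase b, m u x ≠ 0 := by omega
  obtain ⟨w, hw, hw0⟩ := Finset.exists_ne_zero_of_sum_ne_zero h2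
  have h4 := Finset.single_le_sum (f := fun x => m u x) (fun _ _ => Nat.zero_le _) hw
  exact ⟨w, by omega⟩

/-- Every multigraph of maximum degree at most three on an even number of vertices has a good
balanced colouring. -/
theorem exists_colouring (heven : Even (Fintype.card V)) : ∀ m : V → V → ℕ, MG m → PP m := by
  suffices h : ∀ (k : ℕ) (m : V → V → ℕ), mu m = k → MG m → PP m from
    fun m hm => h _ m rfl hm
  intro k
  induction k using Nat.strong_induction_on with
  | _ k ih =>
  intro m hk hm
  have hred : (∃ m' : V → V → ℕ, MG m' ∧ mu m' < mu m ∧ (PP m' → PP m)) → PP m := by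
    rintro ⟨m', hm', hlt, himp⟩
    exact himp (ih (mu m') (by omega) m' rfl hm')
  by_cases hdef : ∀ x y, x ≠ y → dg m x ≤ 2 → dg m y ≤ 2 → False
  · by_cases hT3 : ∀ b u, m b u = 2 → ∃ w, m b w = 1 ∧ m u w = 1
    · exact main_case hm heven hdef hT3
    · push Not at hT3
      obtain ⟨b, u, hbu, hno⟩ := hT3
      have hub : m u b = 2 := by rw [hm.symm]; exact hbu
      have n1 : b ≠ u := by
        rintro rfl; rw [hm.irr] at hbu; omega
      apply hred
      rcases Nat.lt_or_ge 2 (dg m b) with hb | hb
      · rcases Nat.lt_or_ge 2 (dg m u) with hu | hu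
        · obtain ⟨b', hb'⟩ := third hm hbu hb
          obtain ⟨w, hw⟩ := third hm hub hu
          refine step_switch hm hbu hb' hw ?_
          rintro rfl
          exact hno b' hb' hw
        · obtain ⟨b', hb'⟩ := third hm hbu hb
          exact step_deficient hm hub hu hb'
      · have hu : 2 < dg m u := by
          by_contra h
          exact hdef b u n1 hb (by omega)
        obtain ⟨w, hw⟩ := third hm hub hu
        exact step_deficient hm hbu hb hw
  · push Not at hdef
    obtain ⟨x, y, hxy, hx, hy, _⟩ := hdef
    exact hred (step_add hm hxy hx hy)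

end Pool.Agent.TDK
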