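import Pool.Agent.TDK.Embed2
import Pool.Agent.TDK.Steps

set_option autoImplicit false
set_option linter.unusedSectionVars false
set_option linter.unusedSimpArgs false
set_option linter.unusedVariables false

namespace Pool.Agent.TDK

open Finset

variable {V W : Type*} [DecidableEq V] [DecidableEq W] {D : V → V → Prop} {T : W → W → Prop}
  {m : V → V → ℕ}

theorem le_dX {X : Finset V} {x y : V} (hy : y ∈ X) : m x y ≤ dX m X x :=
  Finset.single_le_sum (f := fun y => m x y) (fun _ _ => Nat.zero_le _) hy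

theorem two_le_dX {X : Finset V} {x y z : V} (hy : y ∈ X) (hz : z ∈ X) (hyz : y ≠ z) :
    m x y + m x z ≤ dX m X x := by
  have h : ∑ w ∈ ({y, z} : Finset V), m x w ≤ ∑ w ∈ X, m x w := by
    refine Finset.sum_le_sum_of_subset ?_
    intro w hw
    simp only [Finset.mem_insert, Finset.mem_singleton] at hw
    rcases hw with rfl | rfl <;> assumption
  rwa [Finset.sum_pair hyz] at h

theorem three_le_dX {X : Finset V} {x y z w : V} (hy : y ∈ X) (hz : z ∈ X) (hw : w ∈ X)
    (hyz : y ≠ z) (hyw : y ≠ w) (hzw : z ≠ w) : m x y + m x z + m x w ≤ dX m X x := by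
  have h : ∑ v ∈ ({y, z, w} : Finset V), m x v ≤ ∑ v ∈ X, m x v := by
    refine Finset.sum_le_sum_of_subset ?_
    intro v hv
    simp only [Finset.mem_insert, Finset.mem_singleton] at hv
    rcases hv with rfl | rfl | rfl <;> assumption
  rw [Finset.sum_insert (by simp [hyz, hyw]), Finset.sum_pair hzw] at h
  unfold dX
  omega

theorem exists_nbr {X : Finset V} (hX : SX m X) {x : V} (hx : x ∈ X) (h : 1 ≤ dX m X x) :
    ∃ y ∈ X, m x y = 1 := by
  have h1 : ∑ y ∈ X, m x y ≠ 0 := by
    unfold dX at h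
    omega
  obtain ⟨y, hy, hy0⟩ := Finset.exists_ne_zero_of_sum_ne_zero h1
  have := hX.simple x hx y hy
  exact ⟨y, hy, by omega⟩

theorem exists_nbr2 {X : Finset V} (hX : SX m X) {x y : V} (hx : x ∈ X) (hy : y ∈ X)
    (hxy : m x y = 1) (h : dX m X x = 2) : ∃ z ∈ X, z ≠ y ∧ m x z = 1 := by
  unfold dX at h
  rw [← Finset.add_sum_erase _ _ hy] at h
  have h1 : ∑ z ∈ X.erase y, m x z ≠ 0 := by omega
  obtain ⟨z, hz, hz0⟩ := Finset.exists_ne_zero_of_sum_ne_zero h1
  rw [Finset.mem_erase] at hz
  have := hX.simple x hx z hz.2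
  exact ⟨z, hz.2, hz.1, by omega⟩

/-- Description of a component. -/
inductive Comp (m : V → V → ℕ) (X : Finset V) : Finset V → Prop
  | one (x : V) : Comp m X {x}
  | two (x y : V) (hxy : x ≠ y) (h : m x y = 1) : Comp m X {x, y}
  | three (x y z : V) (hxy : x ≠ y) (hxz : x ≠ z) (hyz : y ≠ z) (h1 : m x y = 1)
      (h2 : m y z = 1) (h3 : m x z = 0) (hy : y ∈ X) (h4 : dX m X y = 2) : Comp m X {x, y, z}
  | four (x y z w : V) (hxy : x ≠ y) (hxz : x ≠ z) (hxw : x ≠ w) (hyz : y ≠ z) (hyw : y ≠ w)
      (hzw : z ≠ w) (h1 : m x y = 1) (h2 : m y z = 1) (h3 : m z w = 1) (h4 : m x z = 0)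
      (h5 : m x w = 0) (h6 : m y w = 0) : Comp m X {x, y, z, w}

theorem exists_comp (hs : ∀ x y, m x y = m y x) (h0 : ∀ x, m x x = 0) {X : Finset V}
    (hX : SX m X) (hne : X.Nonempty) : ∃ C ⊆ X, C.Nonempty ∧ Closed m X C ∧ Comp m X C := by
  have irr : ∀ x y, m x y = 1 → x ≠ y := by
    rintro x y h rfl
    rw [h0] at h
    omega
  obtain ⟨x, hx, hx1⟩ : ∃ x ∈ X, dX m X x ≤ 1 := by
    by_contra hcon
    push Not at hcon
    obtain ⟨x, hx⟩ := hne
    have h1 := hcon x hx
    have h2 := hX.deg x hx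
    obtain ⟨y, hy, _, hy1⟩ := hX.inner x hx (by omega)
    have := hcon y hy
    omega
  rcases Nat.eq_zero_or_pos (dX m X x) with hx0 | hx0
  · refine ⟨{x}, by simpa using hx, by simp, ?_, Comp.one x⟩
    intro a ha y hy
    rw [Finset.mem_singleton] at ha
    subst ha
    have := le_dX (m := m) (x := a) (Finset.mem_sdiff.1 hy).1
    omega
  obtain ⟨y, hy, hxy⟩ := exists_nbr hX hx hx0
  have nxy := irr x y hxy
  have hyx : m y x = 1 := by rw [hs]; exact hxy
  have hx2 : ∀ z ∈ X, z ≠ y → m x z = 0 := by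
    intro z hz hzy
    have := two_le_dX (m := m) (x := x) hz hy hzy
    omega
  have hy1 : 1 ≤ dX m X y := by
    have := le_dX (m := m) (x := y) hx
    omega
  have hy2 := hX.deg y hy
  rcases Nat.lt_or_ge (dX m X y) 2 with hy3 | hy3
  · refine ⟨{x, y}, ?_, by simp, ?_, Comp.two x y nxy hxy⟩
    · intro a ha
      simp only [Finset.mem_insert, Finset.mem_singleton] at ha
      rcases ha with rfl | rfl <;> assumption
    · intro a ha z hz
      simp only [Finset.mem_sdiff, Finset.mem_insert, Finset.mem_singleton, not_or] at ha hz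
      rcases ha with rfl | rfl
      · exact hx2 z hz.1 hz.2.2
      · have := two_le_dX (m := m) (x := a) hz.1 hx hz.2.1
        omega
  have hy4 : dX m X y = 2 := by omega
  obtain ⟨z, hz, hzx, hyz⟩ := exists_nbr2 hX hy hx hyx hy4
  have nyz := irr y z hyz
  have hzy : m z y = 1 := by rw [hs]; exact hyz
  have hxz : m x z = 0 := hx2 z hz nyz.symm
  have hyo : ∀ w ∈ X, w ≠ x → w ≠ z → m y w = 0 := by
    intro w hw hwx hwz
    have := three_le_dX (m := m) (x := y) hw hx hz hwx hwz hzx.symm
    omega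
  have hz1 : 1 ≤ dX m X z := by
    have := le_dX (m := m) (x := z) hy
    omega
  have hz2 := hX.deg z hz
  rcases Nat.lt_or_ge (dX m X z) 2 with hz3 | hz3
  · refine ⟨{x, y, z}, ?_, by simp, ?_, Comp.three x y z nxy hzx.symm nyz hxy hyz hxz hy hy4⟩
    · intro a ha
      simp only [Finset.mem_insert, Finset.mem_singleton] at ha
      rcases ha with rfl | rfl | rfl <;> assumption
    · intro a ha w hw
      simp only [Finset.mem_sdiff, Finset.mem_insert, Finset.mem_singleton, not_or] at ha hw
      rcases ha with rfl | rfl | rfl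
      · exact hx2 w hw.1 hw.2.2.1
      · exact hyo w hw.1 hw.2.1 hw.2.2.2
      · have := two_le_dX (m := m) (x := a) hw.1 hy hw.2.2.1
        omega
  have hz4 : dX m X z = 2 := by omega
  obtain ⟨w, hw, hwy, hzw⟩ := exists_nbr2 hX hz hy hzy hz4
  have nzw := irr z w hzw
  have hwz : m w z = 1 := by rw [hs]; exact hzw
  have hwx : w ≠ x := by
    rintro rfl
    rw [hs] at hzw
    omega
  have hzo : ∀ v ∈ X, v ≠ y → v ≠ w → m z v = 0 := by
    intro v hv hvy hvw
    have := three_le_dX (m := m) (x := z) hv hy hw hvy hvw hwy.symm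
    omega
  have hw1 : dX m X w = 1 := by
    obtain ⟨v, hv, hzv, hv1⟩ := hX.inner z hz hz4
    by_cases hvw : v = w
    · rw [← hvw]; exact hv1
    · by_cases hvy : v = y
      · subst hvy; omega
      · have := hzo v hv hvy hvw
        omega
  have hwo : ∀ v ∈ X, v ≠ z → m w v = 0 := by
    intro v hv hvz
    have := two_le_dX (m := m) (x := w) hv hz hvz
    omega
  refine ⟨{x, y, z, w}, ?_, by simp, ?_, Comp.four x y z w nxy hzx.symm hwx.symm nyz hwy.symm nzw
    hxy hyz hzw hxz (hx2 w hw hwy) (hyo w hw hwx nzw.symm)⟩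
  · intro a ha
    simp only [Finset.mem_insert, Finset.mem_singleton] at ha
    rcases ha with rfl | rfl | rfl | rfl <;> assumption
  · intro a ha v hv
    simp only [Finset.mem_sdiff, Finset.mem_insert, Finset.mem_singleton, not_or] at ha hv
    rcases ha with rfl | rfl | rfl | rfl
    · exact hx2 v hv.1 hv.2.2.1
    · exact hyo v hv.1 hv.2.1 hv.2.2.2.1
    · exact hzo v hv.1 hv.2.2.1 hv.2.2.2.2
    · exact hwo v hv.1 hv.2.2.2.1

theorem Comp.card {X C : Finset V} (h : Comp m X C) : 1 ≤ C.card ∧ C.card ≤ 4 ∧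
    (C.card = 3 → ∃ y ∈ X, dX m X y = 2) := by
  cases h with
  | one x => simp
  | two x y hxy h => rw [Finset.card_pair hxy]; omega
  | three x y z hxy hxz hyz h1 h2 h3 hy h4 =>
    rw [Finset.card_insert_of_notMem (by simp [hxy, hxz]), Finset.card_pair hyz]
    exact ⟨by omega, by omega, fun _ => ⟨y, hy, h4⟩⟩
  | four x y z w hxy hxz hxw hyz hyw hzw h1 h2 h3 h4 h5 h6 =>
    rw [Finset.card_insert_of_notMem (by simp [hxy, hxz, hxw]),
      Finset.card_insert_of_notMem (by simp [hyz, hyw]), Finset.card_pair hzw]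
    omega

theorem Comp.emb (hT : Tour T) (hs : ∀ x y, m x y = m y x)
    (hD0 : ∀ x y, x ≠ y → m x y = 0 → D x y)
    (hD1 : ∀ x y, x ≠ y → m x y = 1 → D x y ∨ D y x) {X C : Finset V} (h : Comp m X C)
    {Z : Finset W} (hZ : Z.card = C.card) (hZ3 : C.card = 3 → TT T Z) : Emb D T C Z := by
  cases h with
  | one x =>
    rw [Finset.card_singleton] at hZ
    obtain ⟨p, rfl⟩ := Finset.card_eq_one.1 hZ
    exact Emb.of1 hT x p
  | two x y hxy h =>
    rw [Finset.card_pair hxy] at hZ
    exact emb_two hT hxy (hD1 x y hxy h) hZ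
  | three x y z hxy hxz hyz h1 h2 h3 hy h4 =>
    exact emb_three hT hxy hxz hyz (hD1 x y hxy h1) (hD1 y z hyz h2) (hD0 x z hxz h3)
      (hD0 z x hxz.symm (by rw [hs]; exact h3)) (hZ3 (by
        rw [Finset.card_insert_of_notMem (by simp [hxy, hxz]), Finset.card_pair hyz]))
  | four x y z w hxy hxz hxw hyz hyw hzw h1 h2 h3 h4 h5 h6 =>
    rw [Finset.card_insert_of_notMem (by simp [hxy, hxz, hxw]),
      Finset.card_insert_of_notMem (by simp [hyz, hyw]), Finset.card_pair hzw] at hZ
    exact emb_four hT hxy hxz hxw hyz hyw hzw (hD1 x y hxy h1) (hD1 y z hyz h2)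
      (hD1 z w hzw h3) (hD0 x z hxz h4) (hD0 z x hxz.symm (by rw [hs]; exact h4))
      (hD0 x w hxw h5) (hD0 w x hxw.symm (by rw [hs]; exact h5)) (hD0 y w hyw h6)
      (hD0 w y hyw.symm (by rw [hs]; exact h6)) hZ

theorem SX.sdiff (hs : ∀ x y, m x y = m y x) {X C : Finset V} (hX : SX m X) (hC : C ⊆ X)
    (hcl : Closed m X C) : SX m (X \ C) ∧ ∀ x ∈ X \ C, dX m (X \ C) x = dX m X x := by
  have hd : ∀ x ∈ X \ C, dX m (X \ C) x = dX m X x := by
    intro x hx
    unfold dX
    refine Finset.sum_subset Finset.sdiff_subset ?_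
    intro y hy hy'
    have hyC : y ∈ C := by
      by_contra h
      exact hy' (Finset.mem_sdiff.2 ⟨hy, h⟩)
    rw [hs]
    exact hcl y hyC x hx
  refine ⟨⟨?_, ?_, ?_⟩, hd⟩
  · intro x hx y hy
    exact hX.simple x (Finset.mem_sdiff.1 hx).1 y (Finset.mem_sdiff.1 hy).1
  · intro x hx
    rw [hd x hx]
    exact hX.deg x (Finset.mem_sdiff.1 hx).1
  · intro x hx h2
    rw [hd x hx] at h2
    obtain ⟨y, hy, hxy, hy1⟩ := hX.inner x (Finset.mem_sdiff.1 hx).1 h2
    have hyC : y ∉ C := by
      intro h
      have := hcl y h x hx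
      rw [hs] at this
      omega
    have hy' : y ∈ X \ C := Finset.mem_sdiff.2 ⟨hy, hyC⟩
    exact ⟨y, hy', hxy, by rw [hd y hy']; exact hy1⟩

theorem embed_main [Nonempty V] (hT : Tour T) (hs : ∀ x y, m x y = m y x) (h0 : ∀ x, m x x = 0)
    (hD0 : ∀ x y, x ≠ y → m x y = 0 → D x y)
    (hD1 : ∀ x y, x ≠ y → m x y = 1 → D x y ∨ D y x) : ∀ (n : ℕ) (X : Finset V) (Y : Finset W),
    X.card = n → SX m X → Y.card = X.card →
    (X.card = 3 → (∃ x ∈ X, dX m X x = 2) → TT T Y) → Emb D T X Y := by
  intro n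
  induction n using Nat.strong_induction_on with
  | _ n ih =>
  intro X Y hn hX hY h3
  rcases X.eq_empty_or_nonempty with rfl | hne
  · rw [Finset.card_empty, Finset.card_eq_zero] at hY
    subst hY
    obtain ⟨v⟩ := ‹Nonempty V›
    exact ⟨fun _ => v, by simp, by simp, by simp⟩
  · obtain ⟨C, hCX, hCne, hcl, hcomp⟩ := exists_comp hs h0 hX hne
    obtain ⟨c1, c4, c3⟩ := hcomp.card
    have hcle := Finset.card_le_card hCX
    obtain ⟨Z, hZY, hZc, hZ3, hYZ3⟩ := choose_part hT (Y := Y) c1 (by omega)
      (fun hy hc => h3 (by omega) (c3 hc))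
    obtain ⟨hX', hd⟩ := hX.sdiff hs hCX hcl
    have hcard1 := Finset.card_sdiff_of_subset hCX
    have hcard2 := Finset.card_sdiff_of_subset hZY
    refine Emb.glue hs hD0 hCX hZY hcl (hcomp.emb hT hs hD0 hD1 hZc hZ3)
      (ih (X \ C).card (by omega) _ _ rfl hX' (by omega) ?_)
    intro h _
    exact hYZ3 (by omega)

section final

variable [Fintype V]

/-- Missing arcs. -/
noncomputable def miss (D : V → V → Prop) (x y : V) : ℕ :=
  open Classical in if x = y then 0 else (if D x y then 0 else 1) + (if D y x then 0 else 1)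

theorem main_thm {D : V → V → Prop} (hirr : ∀ v, ¬ D v v) {s : ℕ}
    (hV : Fintype.card V = 2 * s)
    (hdeg : ∀ v, 4 * s ≤ (open Classical in (univ.filter (fun w => D v w)).card +
      (univ.filter (fun w => D w v)).card) + 5) :
    ∃ χ : V → Bool, (∀ c, (univ.filter (fun x => χ x = c)).card = s) ∧
      ∀ (c : Bool) (T : Fin s → Fin s → Prop), Tour T →
        ∃ f : Fin s → V, (∀ w, χ (f w) = c) ∧ Function.Injective f ∧
          ∀ a b, T a b → D (f a) (f b) := by
  classical
  have hm : MG (miss D) := by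
    refine ⟨?_, ?_, ?_⟩
    · intro x y
      unfold miss
      by_cases h : x = y
      · subst h; rfl
      · rw [if_neg h, if_neg (Ne.symm h), Nat.add_comm]
    · intro x
      unfold miss
      rw [if_pos rfl]
    · intro x
      have h1 : ∑ y, (miss D x y + ((if D x y then 1 else 0) + (if D y x then 1 else 0)) +
          (if y = x then 2 else 0)) = ∑ y : V, 2 := by
        refine Finset.sum_congr rfl fun y _ => ?_
        unfold miss
        by_cases h : x = y
        · subst h
          simp [hirr x]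
        · rw [if_neg h, if_neg (Ne.symm h)]
          split_ifs <;> rfl
      rw [Finset.sum_add_distrib, Finset.sum_add_distrib, Finset.sum_add_distrib] at h1
      rw [← Finset.sum_filter, ← Finset.sum_filter] at h1
      simp only [Finset.sum_const, smul_eq_mul, mul_one, Finset.card_univ, hV,
        Finset.sum_ite_eq', Finset.mem_univ, if_true] at h1
      have h2 := hdeg x
      unfold dg
      omega
  obtain ⟨χ, hb, hg⟩ := exists_colouring (V := V) (by rw [hV]; exact even_two_mul s) (miss D) hm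
  have hcard : ∀ c, (univ.filter (fun x => χ x = c)).card = s := by
    intro c
    have h1 := hb.eq c
    have h2 := Finset.card_filter_add_card_filter_not (s := (univ : Finset V))
      (fun x => χ x = c)
    rw [Finset.card_univ, hV] at h2
    have h3 : (univ.filter (fun x => χ x ≠ c)).card = (univ.filter (fun x => ¬ χ x = c)).card := rfl
    omega
  refine ⟨χ, hcard, ?_⟩
  intro c T hT
  rcases Nat.eq_zero_or_pos s with hs0 | hs0
  · subst hs0
    exact ⟨fun w => w.elim0, fun w => w.elim0, fun w => w.elim0, fun w => w.elim0⟩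
  · have hne : Nonempty V := Fintype.card_pos_iff.1 (by omega)
    have hdX : ∀ x ∈ univ.filter (fun x => χ x = c),
        dX (miss D) (univ.filter (fun x => χ x = c)) x = inn (miss D) χ x := by
      intro x hx
      have hx' : χ x = c := by simpa using hx
      unfold dX inn
      rw [Finset.sum_filter, hx']
    have hSX : SX (miss D) (univ.filter (fun x => χ x = c)) := by
      refine ⟨?_, ?_, ?_⟩
      · intro x hx y hy
        have hx' : χ x = c := by simpa using hx
        have hy' : χ y = c := by simpa using hy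
        exact hg.simple x y (by rw [hx', hy'])
      · intro x hx
        rw [hdX x hx]
        exact hg.inn_le x
      · intro x hx h2
        rw [hdX x hx] at h2
        obtain ⟨y, hy, hxy, hy1⟩ := hg.inner x h2
        have hx' : χ x = c := by simpa using hx
        have hym : y ∈ univ.filter (fun x => χ x = c) := by
          simp [hy, hx']
        exact ⟨y, hym, hxy, by rw [hdX y hym]; exact hy1⟩
    have hemb : Emb D T (univ.filter (fun x => χ x = c)) (univ : Finset (Fin s)) := by
      refine embed_main hT hm.symm hm.irr ?_ ?_ s _ univ (hcard c) hSX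
        (by rw [hcard c]; simp) ?_
      · intro x y hxy h
        unfold miss at h
        rw [if_neg hxy] at h
        by_contra hD
        rw [if_neg hD] at h
        omega
      · intro x y hxy h
        unfold miss at h
        rw [if_neg hxy] at h
        by_contra hD
        push Not at hD
        rw [if_neg hD.1, if_neg hD.2] at h
        omega
      · intro h3 hx
        exfalso
        rw [hcard c] at h3
        obtain ⟨x, hx, hx2⟩ := hx
        rw [hdX x hx] at hx2
        have := hg.six (by rw [hV]; omega) x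
        omega
    obtain ⟨f, f1, f2, f3⟩ := hemb
    refine ⟨f, fun w => ?_, fun a b hab => f2 a (Finset.mem_univ _) b (Finset.mem_univ _) hab,
      fun a b hab => f3 a (Finset.mem_univ _) b (Finset.mem_univ _) hab⟩
    simpa using f1 w (Finset.mem_univ _)

end final

end Pool.Agent.TDK
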