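import Mathlib

/-!
# Balanced bipartitions of multigraphs of maximum degree three

`m : V → V → ℕ` is a loopless multigraph of maximum degree at most three on an even number of
vertices. We look for a balanced colouring `χ : V → Bool` such that both colour classes induce
vertex disjoint paths with at most four vertices.
-/

set_option autoImplicit false
set_option linter.unusedSectionVars false
set_option linter.unusedSimpArgs false

namespace Pool.Agent.TDK

open Finset

variable {V : Type*} [Fintype V] [DecidableEq V]

/-- Degree. -/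
def dg (m : V → V → ℕ) (x : V) : ℕ := ∑ y, m x y

/-- Degree inside the own class. -/
def inn (m : V → V → ℕ) (χ : V → Bool) (x : V) : ℕ := ∑ y, if χ y = χ x then m x y else 0

/-- Degree to the other class. -/
def out (m : V → V → ℕ) (χ : V → Bool) (x : V) : ℕ := ∑ y, if χ y = χ x then 0 else m x y

/-- Loopless multigraph with maximum degree at most three. -/
structure MG (m : V → V → ℕ) : Prop where
  symm : ∀ x y, m x y = m y x
  irr : ∀ x, m x x = 0
  deg : ∀ x, dg m x ≤ 3

/-- Both classes induce disjoint paths with at most four vertices (at most two if there are six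
vertices in total). -/
structure Good (m : V → V → ℕ) (χ : V → Bool) : Prop where
  simple : ∀ x y, χ y = χ x → m x y ≤ 1
  inn_le : ∀ x, inn m χ x ≤ 2
  inner : ∀ x, inn m χ x = 2 → ∃ y, χ y = χ x ∧ m x y = 1 ∧ inn m χ y = 1
  six : Fintype.card V = 6 → ∀ x, inn m χ x ≤ 1

/-- Balanced colouring. -/
def Bal (χ : V → Bool) : Prop :=
  (univ.filter (fun x => χ x = true)).card = (univ.filter (fun x => χ x = false)).card

theorem Bal.eq {χ : V → Bool} (h : Bal χ) (c : Bool) :
    (univ.filter (fun x => χ x = c)).card = (univ.filter (fun x => χ x ≠ c)).card := by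
  cases c
  · have : (univ.filter (fun x => χ x ≠ false)) = univ.filter (fun x => χ x = true) := by
      ext x; simp
    rw [this]; exact h.symm
  · have : (univ.filter (fun x => χ x ≠ true)) = univ.filter (fun x => χ x = false) := by
      ext x; simp
    rw [this]; exact h

theorem inn_add_out (m : V → V → ℕ) (χ : V → Bool) (x : V) : inn m χ x + out m χ x = dg m x := by
  unfold inn out dg
  rw [← Finset.sum_add_distrib]
  refine Finset.sum_congr rfl fun y _ => ?_
  split_ifs <;> simp

/-- Exchange the colours of `a` and `b`. -/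
def sw (χ : V → Bool) (a b : V) : V → Bool := fun x => χ (Equiv.swap a b x)

theorem sw_left (χ : V → Bool) (a b : V) : sw χ a b a = χ b := by simp [sw]

theorem sw_right (χ : V → Bool) (a b : V) : sw χ a b b = χ a := by simp [sw]

theorem sw_of_ne (χ : V → Bool) {a b x : V} (h1 : x ≠ a) (h2 : x ≠ b) : sw χ a b x = χ x := by
  simp [sw, Equiv.swap_apply_of_ne_of_ne h1 h2]

theorem Bal.sw {χ : V → Bool} (h : Bal χ) (a b : V) : Bal (sw χ a b) := by
  have key : ∀ c, (univ.filter (fun x => TDK.sw χ a b x = c)).card =
      (univ.filter (fun x => χ x = c)).card := by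
    intro c
    refine Finset.card_equiv (Equiv.swap a b) ?_
    intro x
    rw [Finset.mem_filter, Finset.mem_filter]
    exact ⟨fun h => ⟨Finset.mem_univ _, h.2⟩, fun h => ⟨Finset.mem_univ _, h.2⟩⟩
  unfold Bal
  rw [key, key]
  exact h

theorem m_le_inn {m : V → V → ℕ} {χ : V → Bool} {x y : V} (h : χ y = χ x) :
    m x y ≤ inn m χ x := by
  unfold inn
  have := Finset.single_le_sum (f := fun z => if χ z = χ x then m x z else 0)
    (fun z _ => Nat.zero_le _) (Finset.mem_univ y)
  simpa [h] using this

theorem m_le_out {m : V → V → ℕ} {χ : V → Bool} {x y : V} (h : χ y ≠ χ x) :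
    m x y ≤ out m χ x := by
  unfold out
  have := Finset.single_le_sum (f := fun z => if χ z = χ x then 0 else m x z)
    (fun z _ => Nat.zero_le _) (Finset.mem_univ y)
  simpa [h] using this

/-- Sum over two distinct elements. -/
theorem two_le_sum (f : V → ℕ) {y z : V} (hyz : y ≠ z) : f y + f z ≤ ∑ x, f x := by
  have h : ∑ x ∈ ({y, z} : Finset V), f x ≤ ∑ x, f x :=
    Finset.sum_le_sum_of_subset (Finset.subset_univ _)
  rwa [Finset.sum_pair hyz] at h

theorem three_le_sum (f : V → ℕ) {y z w : V} (hyz : y ≠ z) (hyw : y ≠ w) (hzw : z ≠ w) :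
    f y + f z + f w ≤ ∑ x, f x := by
  have h : ∑ x ∈ ({y, z, w} : Finset V), f x ≤ ∑ x, f x :=
    Finset.sum_le_sum_of_subset (Finset.subset_univ _)
  rw [Finset.sum_insert (by simp [hyz, hyw]), Finset.sum_pair hzw] at h
  omega

theorem sw_inn_same {m : V → V → ℕ} {χ : V → Bool} {a b x : V} (hab : χ a ≠ χ b)
    (hx : χ x = χ a) (hxa : x ≠ a) : inn m (sw χ a b) x + m x a = inn m χ x + m x b := by
  have hne : a ≠ b := fun h => hab (by rw [h])
  have hxb : x ≠ b := fun h => hab (by rw [← hx, h])
  have e1 : m x a = ∑ y, if y = a then m x y else 0 := by simp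
  have e2 : m x b = ∑ y, if y = b then m x y else 0 := by simp
  rw [e1, e2]
  unfold inn
  rw [← Finset.sum_add_distrib, ← Finset.sum_add_distrib]
  refine Finset.sum_congr rfl fun y _ => ?_
  rw [sw_of_ne χ hxa hxb]
  by_cases hya : y = a
  · subst hya
    rw [sw_left]
    simp [hx, hab.symm, hne]
  · by_cases hyb : y = b
    · subst hyb
      rw [sw_right]
      simp [hx, hab.symm, hne.symm]
    · rw [sw_of_ne χ hya hyb]
      simp [hya, hyb]

theorem sw_comm (χ : V → Bool) (a b : V) : sw χ a b = sw χ b a := by
  funext x; simp [sw, Equiv.swap_comm]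

theorem sw_inn_other {m : V → V → ℕ} {χ : V → Bool} {a b x : V} (hab : χ a ≠ χ b)
    (hx : χ x = χ b) (hxb : x ≠ b) : inn m (sw χ a b) x + m x b = inn m χ x + m x a := by
  rw [sw_comm]
  exact sw_inn_same hab.symm hx hxb

theorem sw_inn_left {m : V → V → ℕ} (hm : MG m) {χ : V → Bool} {a b : V} (hab : χ a ≠ χ b) :
    inn m (sw χ a b) a + m a b = out m χ a := by
  have hne : a ≠ b := fun h => hab (by rw [h])
  have e2 : m a b = ∑ y, if y = b then m a y else 0 := by simp
  rw [e2]
  unfold inn out
  rw [← Finset.sum_add_distrib]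
  refine Finset.sum_congr rfl fun y _ => ?_
  rw [sw_left]
  by_cases hya : y = a
  · subst hya
    simp [hm.irr]
  · by_cases hyb : y = b
    · subst hyb
      rw [sw_right]
      simp [hab, hab.symm]
    · rw [sw_of_ne χ hya hyb]
      by_cases h : χ y = χ a
      · have : χ y ≠ χ b := by rw [h]; exact hab
        simp [h, this, hyb, hab]
      · have : χ y = χ b := by
          revert h hab
          cases χ y <;> cases χ a <;> cases χ b <;> simp
        simp [h, this, hyb, hab.symm]

theorem sw_inn_right {m : V → V → ℕ} (hm : MG m) {χ : V → Bool} {a b : V} (hab : χ a ≠ χ b) :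
    inn m (sw χ a b) b + m a b = out m χ b := by
  rw [sw_comm, hm.symm a b]
  exact sw_inn_left hm hab.symm

theorem sum_inn_same {m : V → V → ℕ} (hm : MG m) (χ : V → Bool) (a : V) :
    ∑ x, (if χ x = χ a then m x a else 0) = inn m χ a := by
  unfold inn
  refine Finset.sum_congr rfl fun x _ => ?_
  rw [hm.symm x a]

theorem sum_out_same {m : V → V → ℕ} (hm : MG m) {χ : V → Bool} {a b : V} (hab : χ a ≠ χ b) :
    ∑ x, (if χ x = χ a then m x b else 0) = out m χ b := by
  unfold out
  refine Finset.sum_congr rfl fun x _ => ?_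
  rw [hm.symm x b]
  have : χ x = χ a ↔ ¬ χ x = χ b := by
    revert hab
    cases χ x <;> cases χ a <;> cases χ b <;> simp
  by_cases h : χ x = χ b
  · rw [if_pos h, if_neg (fun h' => (this.1 h') h)]
  · rw [if_neg h, if_pos (this.2 h)]

/-- Twice the number of edges inside the classes. -/
def E (m : V → V → ℕ) (χ : V → Bool) : ℕ := ∑ x, inn m χ x

theorem E_sw {m : V → V → ℕ} (hm : MG m) {χ : V → Bool} {a b : V} (hab : χ a ≠ χ b) :
    E m (sw χ a b) + (2 * inn m χ a + 2 * inn m χ b + 4 * m a b) =
      E m χ + (2 * out m χ a + 2 * out m χ b) := by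
  have hne : a ≠ b := fun h => hab (by rw [h])
  have hL : ∑ x, ((if χ x = χ a then m x a else 0) + (if χ x = χ b then m x b else 0) +
      (if x = a then inn m χ a + 2 * m a b else 0) +
      (if x = b then inn m χ b + 2 * m a b else 0)) =
      2 * inn m χ a + 2 * inn m χ b + 4 * m a b := by
    rw [Finset.sum_add_distrib, Finset.sum_add_distrib, Finset.sum_add_distrib,
      sum_inn_same hm, sum_inn_same hm]
    simp
    ring
  have hR : ∑ x, ((if χ x = χ a then m x b else 0) + (if χ x = χ b then m x a else 0) +
      (if x = a then out m χ a else 0) + (if x = b then out m χ b else 0)) =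
      2 * out m χ a + 2 * out m χ b := by
    rw [Finset.sum_add_distrib, Finset.sum_add_distrib, Finset.sum_add_distrib,
      sum_out_same hm hab, sum_out_same hm hab.symm]
    simp
    ring
  rw [← hL, ← hR]
  unfold E
  rw [← Finset.sum_add_distrib, ← Finset.sum_add_distrib]
  refine Finset.sum_congr rfl fun x _ => ?_
  by_cases hxa : x = a
  · subst hxa
    have := sw_inn_left hm hab
    simp [hm.irr, hab, hne]
    omega
  · by_cases hxb : x = b
    · subst hxb
      have := sw_inn_right hm hab
      have h2 := hm.symm a x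
      simp [hm.irr, hab.symm, hne.symm]
      omega
    · by_cases h : χ x = χ a
      · have h' : χ x ≠ χ b := by rw [h]; exact hab
        have := sw_inn_same (m := m) hab h hxa
        simp [h, h', hxa, hxb, hab]
        omega
      · have h' : χ x = χ b := by
          revert h hab
          cases χ x <;> cases χ a <;> cases χ b <;> simp
        have := sw_inn_other (m := m) hab h' hxb
        simp [h, h', hxa, hxb, hab.symm]
        omega

end Pool.Agent.TDK
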