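import Mathlib

/-!
# Embedding tournaments into digraphs that miss only short disjoint paths
-/

set_option autoImplicit false
set_option linter.unusedSectionVars false
set_option linter.unusedSimpArgs false
set_option linter.unusedVariables false

namespace Pool.Agent.TDK

open Finset

/-- Tournament relation. -/
structure Tour {W : Type*} (T : W → W → Prop) : Prop where
  irr : ∀ a, ¬ T a a
  tot : ∀ a b, a ≠ b → T a b ∨ T b a
  asymm : ∀ a b, T a b → ¬ T b a

theorem Tour.ne {W : Type*} {T : W → W → Prop} (h : Tour T) {a b : W} (hab : T a b) : a ≠ b := by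
  rintro rfl
  exact h.irr _ hab

/-- `S` spans a transitive triangle. -/
def TT {W : Type*} [DecidableEq W] (T : W → W → Prop) (S : Finset W) : Prop :=
  ∃ p q r, S = {p, q, r} ∧ T p q ∧ T q r ∧ T p r

section tt

variable {W : Type*} [DecidableEq W] {T : W → W → Prop}

theorem TT.card (h : Tour T) {S : Finset W} (hS : TT T S) : S.card = 3 := by
  obtain ⟨p, q, r, rfl, h1, h2, h3⟩ := hS
  rw [Finset.card_insert_of_notMem (by simp [h.ne h1, h.ne h3]), Finset.card_pair (h.ne h2)]

theorem TT.rev {S : Finset W} (hS : TT T S) : TT (fun a b => T b a) S := by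
  obtain ⟨p, q, r, rfl, h1, h2, h3⟩ := hS
  refine ⟨r, q, p, ?_, h2, h1, h3⟩
  ext x; simp; tauto

theorem Tour.rev (h : Tour T) : Tour (fun a b => T b a) :=
  ⟨h.irr, fun a b hab => (h.tot a b hab).symm, fun a b hab => h.asymm b a hab⟩

/-- A vertex dominating two others. -/
theorem TT.of_out (h : Tour T) {v x y : W} (hxy : x ≠ y) (hx : T v x) (hy : T v y) :
    TT T {v, x, y} := by
  rcases h.tot x y hxy with h1 | h1
  · exact ⟨v, x, y, rfl, hx, h1, hy⟩
  · refine ⟨v, y, x, ?_, hy, h1, hx⟩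
    ext z; simp; tauto

theorem TT.of_in (h : Tour T) {v x y : W} (hxy : x ≠ y) (hx : T x v) (hy : T y v) :
    TT T {v, x, y} := TT.rev (TT.of_out h.rev hxy hx hy)

theorem exists_TT (h : Tour T) {Y : Finset W} (hY : 4 ≤ Y.card) : ∃ S ⊆ Y, TT T S := by
  classical
  obtain ⟨a, ha⟩ := Finset.card_pos.1 (by omega : 0 < Y.card)
  have h1 : ((Y.erase a).filter (fun x => T a x)).card +
      ((Y.erase a).filter (fun x => ¬ T a x)).card = Y.card - 1 := by
    rw [Finset.card_filter_add_card_filter_not, Finset.card_erase_of_mem ha]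
  rcases Nat.lt_or_ge 1 ((Y.erase a).filter (fun x => T a x)).card with h2 | h2
  · obtain ⟨x, hx, y, hy, hxy⟩ := Finset.one_lt_card.1 h2
    rw [Finset.mem_filter, Finset.mem_erase] at hx hy
    refine ⟨{a, x, y}, ?_, TT.of_out h hxy hx.2 hy.2⟩
    intro z hz
    rw [Finset.mem_insert, Finset.mem_insert, Finset.mem_singleton] at hz
    rcases hz with rfl | rfl | rfl
    · exact ha
    · exact hx.1.2
    · exact hy.1.2
  · obtain ⟨x, hx, y, hy, hxy⟩ := Finset.one_lt_card.1
      (by omega : 1 < ((Y.erase a).filter (fun x => ¬ T a x)).card)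
    rw [Finset.mem_filter, Finset.mem_erase] at hx hy
    have hx' : T x a := (h.tot x a hx.1.1).resolve_right hx.2
    have hy' : T y a := (h.tot y a hy.1.1).resolve_right hy.2
    refine ⟨{a, x, y}, ?_, TT.of_in h hxy hx' hy'⟩
    intro z hz
    rw [Finset.mem_insert, Finset.mem_insert, Finset.mem_singleton] at hz
    rcases hz with rfl | rfl | rfl
    · exact ha
    · exact hx.1.2
    · exact hy.1.2

/-- Two disjoint transitive triangles in a tournament on six vertices, if some vertex has three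
out-neighbours. -/
theorem six_out (h : Tour T) {Y : Finset W} {v a b c d e : W} (hYc : Y.card = 6)
    (hY : ∀ x ∈ ({v, a, b, c, d, e} : Finset W), x ∈ Y)
    (hab : a ≠ b) (hac : a ≠ c) (hbc : b ≠ c) (hda : d ≠ a) (hdb : d ≠ b) (hdc : d ≠ c)
    (hea : e ≠ a) (heb : e ≠ b) (hec : e ≠ c) (hdv : d ≠ v) (hev : e ≠ v)
    (hva : T v a) (hvb : T v b) (hvc : T v c) (hde : T d e) :
    ∃ S ⊆ Y, TT T S ∧ TT T (Y \ S) := by
  have key : ∀ S S' : Finset W, TT T S → TT T S' → Disjoint S S' → S ⊆ Y → S' ⊆ Y →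
      ∃ S ⊆ Y, TT T S ∧ TT T (Y \ S) := by
    intro S S' hS hS' hd h1 h2
    refine ⟨S, h1, hS, ?_⟩
    have : S' = Y \ S := by
      refine Finset.eq_of_subset_of_card_le ?_ ?_
      · intro x hx
        rw [Finset.mem_sdiff]
        exact ⟨h2 hx, fun h3 => Finset.disjoint_left.1 hd h3 hx⟩
      · rw [Finset.card_sdiff_of_subset h1, hS.card h, hS'.card h, hYc]
    rw [← this]
    exact hS'
  have na := h.ne hva
  have nb := h.ne hvb
  have nc := h.ne hvc
  have nde := h.ne hde
  have sub : ∀ x y z : W, x ∈ ({v, a, b, c, d, e} : Finset W) →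
      y ∈ ({v, a, b, c, d, e} : Finset W) → z ∈ ({v, a, b, c, d, e} : Finset W) →
      ({x, y, z} : Finset W) ⊆ Y := by
    intro x y z hx hy hz w hw
    rw [Finset.mem_insert, Finset.mem_insert, Finset.mem_singleton] at hw
    rcases hw with rfl | rfl | rfl
    · exact hY _ hx
    · exact hY _ hy
    · exact hY _ hz
  by_cases h1 : TT T {a, d, e}
  · exact key {v, b, c} {a, d, e} (TT.of_out h hbc hvb hvc) h1
      (by simp [na, nb, nc, nde, hab, hac, hbc, hda, hdb, hdc, hea, heb, hec, hdv, hev, na.symm, nb.symm,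
        nc.symm, nde.symm, hab.symm, hac.symm, hbc.symm, hda.symm, hdb.symm, hdc.symm, hea.symm,
        heb.symm, hec.symm, hdv.symm, hev.symm]) (sub _ _ _ (by simp) (by simp) (by simp)) (sub _ _ _ (by simp) (by simp) (by simp))
  by_cases h2 : TT T {b, d, e}
  · exact key {v, a, c} {b, d, e} (TT.of_out h hac hva hvc) h2
      (by simp [na, nb, nc, nde, hab, hac, hbc, hda, hdb, hdc, hea, heb, hec, hdv, hev, na.symm, nb.symm,
        nc.symm, nde.symm, hab.symm, hac.symm, hbc.symm, hda.symm, hdb.symm, hdc.symm, hea.symm,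
        heb.symm, hec.symm, hdv.symm, hev.symm]) (sub _ _ _ (by simp) (by simp) (by simp)) (sub _ _ _ (by simp) (by simp) (by simp))
  by_cases h3 : TT T {c, d, e}
  · exact key {v, a, b} {c, d, e} (TT.of_out h hab hva hvb) h3
      (by simp [na, nb, nc, nde, hab, hac, hbc, hda, hdb, hdc, hea, heb, hec, hdv, hev, na.symm, nb.symm,
        nc.symm, nde.symm, hab.symm, hac.symm, hbc.symm, hda.symm, hdb.symm, hdc.symm, hea.symm,
        heb.symm, hec.symm, hdv.symm, hev.symm]) (sub _ _ _ (by simp) (by simp) (by simp)) (sub _ _ _ (by simp) (by simp) (by simp))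
  -- all cyclic: `e → z → d` for `z = a, b, c`
  have hcyc : ∀ z, z ≠ d → z ≠ e → ¬ TT T {z, d, e} → T e z ∧ T z d := by
    intro z hzd hze hz
    constructor
    · rcases h.tot e z (Ne.symm hze) with h4 | h4
      · exact h4
      · exfalso
        apply hz
        have := TT.of_in h hzd h4 hde
        obtain ⟨p, q, r, h5, h6⟩ := this
        refine ⟨p, q, r, ?_, h6⟩
        rw [← h5]
        ext x; simp; tauto
    · rcases h.tot z d hzd with h4 | h4
      · exact h4
      · exfalso
        apply hz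
        have := TT.of_out h hze h4 hde
        obtain ⟨p, q, r, h5, h6⟩ := this
        refine ⟨p, q, r, ?_, h6⟩
        rw [← h5]
        ext x; simp; tauto
  obtain ⟨ea, ad⟩ := hcyc a hda.symm hea.symm h1
  obtain ⟨eb, bd⟩ := hcyc b hdb.symm heb.symm h2
  obtain ⟨ec, cd⟩ := hcyc c hdc.symm hec.symm h3
  rcases h.tot v d hdv.symm with h4 | h4
  · exact key {v, c, d} {e, a, b} (TT.of_out h hdc.symm hvc h4) (TT.of_out h hab ea eb)
      (by simp [na, nb, nc, nde, hab, hac, hbc, hda, hdb, hdc, hea, heb, hec, hdv, hev, na.symm, nb.symm,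
        nc.symm, nde.symm, hab.symm, hac.symm, hbc.symm, hda.symm, hdb.symm, hdc.symm, hea.symm,
        heb.symm, hec.symm, hdv.symm, hev.symm])
      (sub _ _ _ (by simp) (by simp) (by simp)) (sub _ _ _ (by simp) (by simp) (by simp))
  · exact key {d, a, b} {c, v, e} (TT.of_in h hab ad bd) (TT.of_in h hev.symm hvc ec)
      (by simp [na, nb, nc, nde, hab, hac, hbc, hda, hdb, hdc, hea, heb, hec, hdv, hev, na.symm, nb.symm,
        nc.symm, nde.symm, hab.symm, hac.symm, hbc.symm, hda.symm, hdb.symm, hdc.symm, hea.symm,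
        heb.symm, hec.symm, hdv.symm, hev.symm])
      (sub _ _ _ (by simp) (by simp) (by simp)) (sub _ _ _ (by simp) (by simp) (by simp))

theorem six_out' (h : Tour T) {Y : Finset W} {v a b c : W} (hYc : Y.card = 6)
    (hv : v ∈ Y) (ha : a ∈ Y) (hb : b ∈ Y) (hc : c ∈ Y)
    (hab : a ≠ b) (hac : a ≠ c) (hbc : b ≠ c)
    (hva : T v a) (hvb : T v b) (hvc : T v c) : ∃ S ⊆ Y, TT T S ∧ TT T (Y \ S) := by
  have na := h.ne hva
  have nb := h.ne hvb
  have nc := h.ne hvc
  have h4 : ({v, a, b, c} : Finset W).card = 4 := by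
    rw [Finset.card_insert_of_notMem (by simp [na, nb, nc]),
      Finset.card_insert_of_notMem (by simp [hab, hac]), Finset.card_pair hbc]
  have hsub : ({v, a, b, c} : Finset W) ⊆ Y := by
    intro x hx
    simp only [Finset.mem_insert, Finset.mem_singleton] at hx
    rcases hx with rfl | rfl | rfl | rfl <;> assumption
  have h2 : (Y \ {v, a, b, c}).card = 2 := by
    rw [Finset.card_sdiff_of_subset hsub, h4, hYc]
  obtain ⟨d, e, hde, heq⟩ := Finset.card_eq_two.1 h2
  have hd : d ∈ Y \ {v, a, b, c} := by rw [heq]; simp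
  have he : e ∈ Y \ {v, a, b, c} := by rw [heq]; simp
  simp only [Finset.mem_sdiff, Finset.mem_insert, Finset.mem_singleton, not_or] at hd he
  obtain ⟨hdY, d1, d2, d3, d4⟩ := hd
  obtain ⟨heY, e1, e2, e3, e4⟩ := he
  rcases h.tot d e hde with h5 | h5
  · refine six_out h (v := v) (a := a) (b := b) (c := c) (d := d) (e := e) hYc ?_
      hab hac hbc d2 d3 d4 e2 e3 e4 d1 e1 hva hvb hvc h5
    intro x hx
    simp only [Finset.mem_insert, Finset.mem_singleton] at hx
    rcases hx with rfl | rfl | rfl | rfl | rfl | rfl <;> assumption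
  · refine six_out h (v := v) (a := a) (b := b) (c := c) (d := e) (e := d) hYc ?_
      hab hac hbc e2 e3 e4 d2 d3 d4 e1 d1 hva hvb hvc h5
    intro x hx
    simp only [Finset.mem_insert, Finset.mem_singleton] at hx
    rcases hx with rfl | rfl | rfl | rfl | rfl | rfl <;> assumption

/-- A tournament on six vertices splits into two transitive triangles. -/
theorem exists_six (h : Tour T) {Y : Finset W} (hYc : Y.card = 6) :
    ∃ S ⊆ Y, TT T S ∧ TT T (Y \ S) := by
  classical
  obtain ⟨v, hv⟩ := Finset.card_pos.1 (by omega : 0 < Y.card)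
  have h1 : ((Y.erase v).filter (fun x => T v x)).card +
      ((Y.erase v).filter (fun x => ¬ T v x)).card = 5 := by
    rw [Finset.card_filter_add_card_filter_not, Finset.card_erase_of_mem hv, hYc]
  rcases Nat.lt_or_ge 2 ((Y.erase v).filter (fun x => T v x)).card with h2 | h2
  · obtain ⟨a, b, c, ha, hb, hc, hab, hac, hbc⟩ := Finset.two_lt_card_iff.1 h2
    rw [Finset.mem_filter, Finset.mem_erase] at ha hb hc
    exact six_out' h hYc hv ha.1.2 hb.1.2 hc.1.2 hab hac hbc ha.2 hb.2 hc.2
  · obtain ⟨a, b, c, ha, hb, hc, hab, hac, hbc⟩ := Finset.two_lt_card_iff.1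
      (by omega : 2 < ((Y.erase v).filter (fun x => ¬ T v x)).card)
    rw [Finset.mem_filter, Finset.mem_erase] at ha hb hc
    have ha' : T a v := (h.tot a v ha.1.1).resolve_right ha.2
    have hb' : T b v := (h.tot b v hb.1.1).resolve_right hb.2
    have hc' : T c v := (h.tot c v hc.1.1).resolve_right hc.2
    obtain ⟨S, hS, h3, h4⟩ := six_out' h.rev hYc hv ha.1.2 hb.1.2 hc.1.2 hab hac hbc ha' hb' hc'
    exact ⟨S, hS, TT.rev h3, TT.rev h4⟩

/-- Choice of the image of a component. -/
theorem choose_part (h : Tour T) {Y : Finset W} {c : ℕ} (hc1 : 1 ≤ c) (hcY : c ≤ Y.card)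
    (h3 : Y.card = 3 → c = 3 → TT T Y) :
    ∃ Z ⊆ Y, Z.card = c ∧ (c = 3 → TT T Z) ∧ ((Y \ Z).card = 3 → TT T (Y \ Z)) := by
  by_cases h1 : Y.card = c + 3
  · by_cases h2 : c = 3
    · subst h2
      obtain ⟨S, hS, hS1, hS2⟩ := exists_six h h1
      exact ⟨S, hS, hS1.card h, fun _ => hS1, fun _ => hS2⟩
    · obtain ⟨S, hS, hS1⟩ := exists_TT h (Y := Y) (by omega)
      refine ⟨Y \ S, Finset.sdiff_subset, ?_, fun h4 => absurd h4 h2, fun _ => ?_⟩
      · rw [Finset.card_sdiff_of_subset hS, hS1.card h]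
        omega
      · rw [Finset.sdiff_sdiff_eq_self hS]
        exact hS1
  · by_cases h2 : c = 3
    · subst h2
      by_cases h4 : Y.card = 3
      · refine ⟨Y, Finset.Subset.refl _, h4, fun _ => h3 h4 rfl, fun h5 => ?_⟩
        rw [Finset.sdiff_self] at h5
        simp at h5
      · obtain ⟨S, hS, hS1⟩ := exists_TT h (Y := Y) (by omega)
        refine ⟨S, hS, hS1.card h, fun _ => hS1, fun h5 => ?_⟩
        rw [Finset.card_sdiff_of_subset hS, hS1.card h] at h5
        omega
    · obtain ⟨Z, hZ, hZc⟩ := Finset.exists_subset_card_eq hcY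
      refine ⟨Z, hZ, hZc, fun h4 => absurd h4 h2, fun h5 => ?_⟩
      rw [Finset.card_sdiff_of_subset hZ, hZc] at h5
      omega

end tt

end Pool.Agent.TDK
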