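import Pool.Agent.TDK.Embed

set_option autoImplicit false
set_option linter.unusedSectionVars false
set_option linter.unusedSimpArgs false
set_option linter.unusedVariables false

namespace Pool.Agent.TDK

open Finset

variable {V W : Type*} [DecidableEq V] [DecidableEq W] {D : V → V → Prop} {T : W → W → Prop}
  {m : V → V → ℕ}

/-- `D[X]` contains `T[Y]`. -/
def Emb (D : V → V → Prop) (T : W → W → Prop) (X : Finset V) (Y : Finset W) : Prop :=
  ∃ f : W → V, (∀ w ∈ Y, f w ∈ X) ∧ (∀ a ∈ Y, ∀ b ∈ Y, f a = f b → a = b) ∧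
    ∀ a ∈ Y, ∀ b ∈ Y, T a b → D (f a) (f b)

/-- Degree in `X`. -/
def dX (m : V → V → ℕ) (X : Finset V) (x : V) : ℕ := ∑ y ∈ X, m x y

structure SX (m : V → V → ℕ) (X : Finset V) : Prop where
  simple : ∀ x ∈ X, ∀ y ∈ X, m x y ≤ 1
  deg : ∀ x ∈ X, dX m X x ≤ 2
  inner : ∀ x ∈ X, dX m X x = 2 → ∃ y ∈ X, m x y = 1 ∧ dX m X y = 1

def Closed (m : V → V → ℕ) (X C : Finset V) : Prop := ∀ x ∈ C, ∀ y ∈ X \ C, m x y = 0

theorem Emb.glue (hs : ∀ x y, m x y = m y x) {X C : Finset V} {Y Z : Finset W}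
    (hD0 : ∀ x y, x ≠ y → m x y = 0 → D x y) (hC : C ⊆ X) (hZ : Z ⊆ Y) (hcl : Closed m X C)
    (h1 : Emb D T C Z) (h2 : Emb D T (X \ C) (Y \ Z)) : Emb D T X Y := by
  obtain ⟨f, f1, f2, f3⟩ := h1
  obtain ⟨g, g1, g2, g3⟩ := h2
  have hYZ : ∀ w ∈ Y, w ∉ Z → w ∈ Y \ Z := fun w hw hw' => Finset.mem_sdiff.2 ⟨hw, hw'⟩
  refine ⟨fun w => if w ∈ Z then f w else g w, ?_, ?_, ?_⟩
  · intro w hw
    by_cases h : w ∈ Z
    · simp only [if_pos h]
      exact hC (f1 w h)
    · simp only [if_neg h]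
      exact (Finset.mem_sdiff.1 (g1 w (hYZ w hw h))).1
  · intro a ha b hb hab
    by_cases h : a ∈ Z
    · by_cases h' : b ∈ Z
      · simp only [if_pos h, if_pos h'] at hab
        exact f2 a h b h' hab
      · simp only [if_pos h, if_neg h'] at hab
        have h3 := f1 a h
        have h4 := (Finset.mem_sdiff.1 (g1 b (hYZ b hb h'))).2
        rw [hab] at h3
        exact absurd h3 h4
    · by_cases h' : b ∈ Z
      · simp only [if_neg h, if_pos h'] at hab
        have h3 := f1 b h'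
        have h4 := (Finset.mem_sdiff.1 (g1 a (hYZ a ha h))).2
        rw [hab] at h4
        exact absurd h3 h4
      · simp only [if_neg h, if_neg h'] at hab
        exact g2 a (hYZ a ha h) b (hYZ b hb h') hab
  · intro a ha b hb hab
    by_cases h : a ∈ Z
    · by_cases h' : b ∈ Z
      · simp only [if_pos h, if_pos h']
        exact f3 a h b h' hab
      · simp only [if_pos h, if_neg h']
        have h3 := f1 a h
        have h4 := g1 b (hYZ b hb h')
        refine hD0 _ _ ?_ (hcl _ h3 _ h4)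
        intro he
        rw [he] at h3
        exact (Finset.mem_sdiff.1 h4).2 h3
    · by_cases h' : b ∈ Z
      · simp only [if_neg h, if_pos h']
        have h3 := f1 b h'
        have h4 := g1 a (hYZ a ha h)
        refine hD0 _ _ ?_ (by rw [hs]; exact hcl _ h3 _ h4)
        intro he
        rw [← he] at h3
        exact (Finset.mem_sdiff.1 h4).2 h3
      · simp only [if_neg h, if_neg h']
        exact g3 a (hYZ a ha h) b (hYZ b hb h') hab

theorem Emb.of1 (hT : Tour T) (x : V) (p : W) : Emb D T {x} {p} := by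
  refine ⟨fun _ => x, fun w _ => by simp, ?_, ?_⟩
  · intro a ha b hb _
    rw [Finset.mem_singleton] at ha hb
    rw [ha, hb]
  · intro a ha b hb hab
    rw [Finset.mem_singleton] at ha hb
    subst ha hb
    exact absurd hab (hT.irr _)

theorem Emb.of2 (hT : Tour T) {x y : V} {p q : W} (hxy : x ≠ y) (hpq : p ≠ q)
    (h1 : T p q → D x y) (h2 : T q p → D y x) : Emb D T {x, y} {p, q} := by
  refine ⟨fun a => if a = p then x else y, ?_, ?_, ?_⟩
  · intro w _
    by_cases h : w = p <;> simp [h]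
  · intro a ha b hb hab
    simp only [Finset.mem_insert, Finset.mem_singleton] at ha hb
    rcases ha with rfl | rfl <;> rcases hb with rfl | rfl <;>
      simp_all [hpq.symm]
  · intro a ha b hb hab
    have hne := hT.ne hab
    simp only [Finset.mem_insert, Finset.mem_singleton] at ha hb
    rcases ha with rfl | rfl <;> rcases hb with rfl | rfl
    · exact absurd rfl hne
    · simpa [hpq.symm] using h1 hab
    · simpa [hpq.symm] using h2 hab
    · exact absurd rfl hne

theorem Emb.of3 (hT : Tour T) {x y z : V} {p q r : W} (hxy : x ≠ y) (hxz : x ≠ z) (hyz : y ≠ z)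
    (hpq : p ≠ q) (hpr : p ≠ r) (hqr : q ≠ r)
    (h1 : T p q → D x y) (h2 : T q p → D y x) (h3 : T p r → D x z) (h4 : T r p → D z x)
    (h5 : T q r → D y z) (h6 : T r q → D z y) : Emb D T {x, y, z} {p, q, r} := by
  refine ⟨fun a => if a = p then x else if a = q then y else z, ?_, ?_, ?_⟩
  · intro w _
    simp only
    split_ifs <;> simp
  · intro a ha b hb hab
    simp only [Finset.mem_insert, Finset.mem_singleton] at ha hb
    rcases ha with rfl | rfl | rfl <;> rcases hb with rfl | rfl | rfl <;>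
      simp_all [hpq.symm, hpr.symm, hqr.symm, hxy.symm, hxz.symm, hyz.symm]
  · intro a ha b hb hab
    have hne := hT.ne hab
    simp only [Finset.mem_insert, Finset.mem_singleton] at ha hb
    rcases ha with rfl | rfl | rfl <;> rcases hb with rfl | rfl | rfl
    · exact absurd rfl hne
    · simpa [hpq.symm, hpr.symm, hqr.symm] using h1 hab
    · simpa [hpq.symm, hpr.symm, hqr.symm] using h3 hab
    · simpa [hpq.symm, hpr.symm, hqr.symm] using h2 hab
    · exact absurd rfl hne
    · simpa [hpq.symm, hpr.symm, hqr.symm] using h5 hab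
    · simpa [hpq.symm, hpr.symm, hqr.symm] using h4 hab
    · simpa [hpq.symm, hpr.symm, hqr.symm] using h6 hab
    · exact absurd rfl hne

theorem Emb.of4 (hT : Tour T) {x y z w : V} {p q r s : W} (hxy : x ≠ y) (hxz : x ≠ z)
    (hxw : x ≠ w) (hyz : y ≠ z) (hyw : y ≠ w) (hzw : z ≠ w)
    (hpq : p ≠ q) (hpr : p ≠ r) (hps : p ≠ s) (hqr : q ≠ r) (hqs : q ≠ s) (hrs : r ≠ s)
    (h1 : T p q → D x y) (h2 : T q p → D y x) (h3 : T p r → D x z) (h4 : T r p → D z x)
    (h5 : T q r → D y z) (h6 : T r q → D z y) (h7 : T p s → D x w) (h8 : T s p → D w x)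
    (h9 : T q s → D y w) (h10 : T s q → D w y) (h11 : T r s → D z w) (h12 : T s r → D w z) :
    Emb D T {x, y, z, w} {p, q, r, s} := by
  refine ⟨fun a => if a = p then x else if a = q then y else if a = r then z else w, ?_, ?_, ?_⟩
  · intro w _
    simp only
    split_ifs <;> simp
  · intro a ha b hb hab
    simp only [Finset.mem_insert, Finset.mem_singleton] at ha hb
    rcases ha with rfl | rfl | rfl | rfl <;> rcases hb with rfl | rfl | rfl | rfl <;>
      simp_all [hpq.symm, hpr.symm, hps.symm, hqr.symm, hqs.symm, hrs.symm, hxy.symm, hxz.symm,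
        hxw.symm, hyz.symm, hyw.symm, hzw.symm]
  · intro a ha b hb hab
    have hne := hT.ne hab
    simp only [Finset.mem_insert, Finset.mem_singleton] at ha hb
    rcases ha with rfl | rfl | rfl | rfl <;> rcases hb with rfl | rfl | rfl | rfl
    · exact absurd rfl hne
    · simpa [hpq.symm, hpr.symm, hps.symm, hqr.symm, hqs.symm, hrs.symm] using h1 hab
    · simpa [hpq.symm, hpr.symm, hps.symm, hqr.symm, hqs.symm, hrs.symm] using h3 hab
    · simpa [hpq.symm, hpr.symm, hps.symm, hqr.symm, hqs.symm, hrs.symm] using h7 hab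
    · simpa [hpq.symm, hpr.symm, hps.symm, hqr.symm, hqs.symm, hrs.symm] using h2 hab
    · exact absurd rfl hne
    · simpa [hpq.symm, hpr.symm, hps.symm, hqr.symm, hqs.symm, hrs.symm] using h5 hab
    · simpa [hpq.symm, hpr.symm, hps.symm, hqr.symm, hqs.symm, hrs.symm] using h9 hab
    · simpa [hpq.symm, hpr.symm, hps.symm, hqr.symm, hqs.symm, hrs.symm] using h4 hab
    · simpa [hpq.symm, hpr.symm, hps.symm, hqr.symm, hqs.symm, hrs.symm] using h6 hab
    · exact absurd rfl hne
    · simpa [hpq.symm, hpr.symm, hps.symm, hqr.symm, hqs.symm, hrs.symm] using h11 hab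
    · simpa [hpq.symm, hpr.symm, hps.symm, hqr.symm, hqs.symm, hrs.symm] using h8 hab
    · simpa [hpq.symm, hpr.symm, hps.symm, hqr.symm, hqs.symm, hrs.symm] using h10 hab
    · simpa [hpq.symm, hpr.symm, hps.symm, hqr.symm, hqs.symm, hrs.symm] using h12 hab
    · exact absurd rfl hne

/-- Components with one or two vertices. -/
theorem emb_two (hT : Tour T) {x y : V} (hxy : x ≠ y) (hD : D x y ∨ D y x) {Z : Finset W}
    (hZ : Z.card = 2) : Emb D T {x, y} Z := by
  obtain ⟨p, q, hpq, rfl⟩ := Finset.card_eq_two.1 hZ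
  rcases hT.tot p q hpq with h | h
  · rcases hD with hd | hd
    · exact Emb.of2 hT hxy hpq (fun _ => hd) (fun h' => absurd h' (hT.asymm _ _ h))
    · rw [Finset.pair_comm x y]
      exact Emb.of2 hT hxy.symm hpq (fun _ => hd) (fun h' => absurd h' (hT.asymm _ _ h))
  · rcases hD with hd | hd
    · rw [Finset.pair_comm p q]
      exact Emb.of2 hT hxy hpq.symm (fun _ => hd) (fun h' => absurd h' (hT.asymm _ _ h))
    · exact Emb.of2 hT hxy hpq (fun h' => absurd h' (hT.asymm _ _ h)) (fun _ => hd)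

/-- Components that are paths with three vertices. -/
theorem emb_three (hT : Tour T) {x y z : V} (hxy : x ≠ y) (hxz : x ≠ z) (hyz : y ≠ z)
    (h1 : D x y ∨ D y x) (h2 : D y z ∨ D z y) (h3 : D x z) (h4 : D z x) {Z : Finset W}
    (hZ : TT T Z) : Emb D T {x, y, z} Z := by
  obtain ⟨p, q, r, rfl, hpq, hqr, hpr⟩ := hZ
  have a1 := hT.asymm _ _ hpq
  have a2 := hT.asymm _ _ hqr
  have a3 := hT.asymm _ _ hpr
  have npq := hT.ne hpq
  have nqr := hT.ne hqr
  have npr := hT.ne hpr
  rcases h1 with h1 | h1 <;> rcases h2 with h2 | h2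
  · exact Emb.of3 hT hxy hxz hyz npq npr nqr (fun _ => h1) (fun h => absurd h a1) (fun _ => h3)
      (fun h => absurd h a3) (fun _ => h2) (fun h => absurd h a2)
  · -- x → y ← z : y last
    have : ({x, y, z} : Finset V) = {x, z, y} := by ext w; simp; tauto
    rw [this]
    exact Emb.of3 hT hxz hxy hyz.symm npq npr nqr (fun _ => h3) (fun h => absurd h a1)
      (fun _ => h1) (fun h => absurd h a3) (fun _ => h2) (fun h => absurd h a2)
  · -- y → x, y → z : y first
    have : ({x, y, z} : Finset V) = {y, x, z} := by ext w; simp; tauto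
    rw [this]
    exact Emb.of3 hT hxy.symm hyz hxz npq npr nqr (fun _ => h1) (fun h => absurd h a1)
      (fun _ => h2) (fun h => absurd h a3) (fun _ => h3) (fun h => absurd h a2)
  · -- z → y → x
    have : ({x, y, z} : Finset V) = {z, y, x} := by ext w; simp; tauto
    rw [this]
    exact Emb.of3 hT hyz.symm hxz.symm hxy.symm npq npr nqr (fun _ => h2) (fun h => absurd h a1)
      (fun _ => h4) (fun h => absurd h a3) (fun _ => h1) (fun h => absurd h a2)

/-- Encoding of a tournament on four vertices. -/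
def tf (a b c d e f : Bool) : Fin 4 → Fin 4 → Bool
  | 0, 1 => a
  | 1, 0 => !a
  | 0, 2 => b
  | 2, 0 => !b
  | 0, 3 => c
  | 3, 0 => !c
  | 1, 2 => d
  | 2, 1 => !d
  | 1, 3 => e
  | 3, 1 => !e
  | 2, 3 => f
  | 3, 2 => !f
  | _, _ => false

set_option maxRecDepth 100000 in
set_option synthInstance.maxSize 100000 in
/-- Every oriented path on four vertices is contained in every tournament on four vertices. -/
theorem P4 : ∀ a b c d e f x y z : Bool, ∃ s0 s1 : Fin 4, s0 ≠ s1 ∧ tf a b c d e f s0 s1 = x ∧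
    ∃ s2 : Fin 4, s0 ≠ s2 ∧ s1 ≠ s2 ∧ tf a b c d e f s1 s2 = y ∧
    ∃ s3 : Fin 4, s0 ≠ s3 ∧ s1 ≠ s3 ∧ s2 ≠ s3 ∧ tf a b c d e f s2 s3 = z := by
  decide

theorem tour_four (hT : Tour T) {Z : Finset W} (hZ : Z.card = 4) (x y z : Prop) :
    ∃ p q r s, p ≠ q ∧ p ≠ r ∧ p ≠ s ∧ q ≠ r ∧ q ≠ s ∧ r ≠ s ∧ Z = {p, q, r, s} ∧
      (T p q ↔ x) ∧ (T q r ↔ y) ∧ (T r s ↔ z) := by
  classical
  let e := (Finset.equivFinOfCardEq hZ).symm
  let P : Fin 4 → W := fun i => (e i : W)
  have hP : Function.Injective P := fun i j h => e.injective (Subtype.ext h)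
  have hPZ : ∀ i, P i ∈ Z := fun i => (e i).2
  have htf : ∀ i j, i ≠ j → (tf (decide (T (P 0) (P 1))) (decide (T (P 0) (P 2)))
      (decide (T (P 0) (P 3))) (decide (T (P 1) (P 2))) (decide (T (P 1) (P 3)))
      (decide (T (P 2) (P 3))) i j = true ↔ T (P i) (P j)) := by
    have hn : ∀ i j, i ≠ j → (¬ T (P i) (P j) ↔ T (P j) (P i)) := by
      intro i j hij
      constructor
      · intro h
        exact (hT.tot _ _ (fun h' => hij (hP h'))).resolve_left h
      · intro h
        exact hT.asymm _ _ h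
    intro i j hij
    fin_cases i <;> fin_cases j <;> first
      | exact absurd rfl hij
      | (simp [tf]; done)
      | (simp [tf]; exact hn _ _ (by decide))
  obtain ⟨s0, s1, h01, e01, s2, h02, h12, e12, s3, h03, h13, h23, e23⟩ :=
    P4 (decide (T (P 0) (P 1))) (decide (T (P 0) (P 2))) (decide (T (P 0) (P 3)))
      (decide (T (P 1) (P 2))) (decide (T (P 1) (P 3))) (decide (T (P 2) (P 3)))
      (decide x) (decide y) (decide z)
  have g1 : T (P s0) (P s1) ↔ x := by
    rw [← htf s0 s1 h01, e01]; simp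
  have g2 : T (P s1) (P s2) ↔ y := by
    rw [← htf s1 s2 h12, e12]; simp
  have g3 : T (P s2) (P s3) ↔ z := by
    rw [← htf s2 s3 h23, e23]; simp
  have k01 : P s0 ≠ P s1 := fun h => h01 (hP h)
  have k02 : P s0 ≠ P s2 := fun h => h02 (hP h)
  have k03 : P s0 ≠ P s3 := fun h => h03 (hP h)
  have k12 : P s1 ≠ P s2 := fun h => h12 (hP h)
  have k13 : P s1 ≠ P s3 := fun h => h13 (hP h)
  have k23 : P s2 ≠ P s3 := fun h => h23 (hP h)
  refine ⟨P s0, P s1, P s2, P s3, k01, k02, k03, k12, k13, k23, ?_, g1, g2, g3⟩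
  symm
  refine Finset.eq_of_subset_of_card_le ?_ ?_
  · intro w hw
    simp only [Finset.mem_insert, Finset.mem_singleton] at hw
    rcases hw with rfl | rfl | rfl | rfl <;> exact hPZ _
  · rw [hZ, Finset.card_insert_of_notMem (by simp [k01, k02, k03]),
      Finset.card_insert_of_notMem (by simp [k12, k13]), Finset.card_pair k23]

/-- Components that are paths with four vertices. -/
theorem emb_four (hT : Tour T) {x y z w : V} (hxy : x ≠ y) (hxz : x ≠ z)
    (hxw : x ≠ w) (hyz : y ≠ z) (hyw : y ≠ w) (hzw : z ≠ w)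
    (h1 : D x y ∨ D y x) (h2 : D y z ∨ D z y) (h3 : D z w ∨ D w z)
    (h4 : D x z) (h5 : D z x) (h6 : D x w) (h7 : D w x) (h8 : D y w) (h9 : D w y)
    {Z : Finset W} (hZ : Z.card = 4) : Emb D T {x, y, z, w} Z := by
  obtain ⟨p, q, r, s, n1, n2, n3, n4, n5, n6, rfl, e1, e2, e3⟩ :=
    tour_four hT hZ (D x y) (D y z) (D z w)
  refine Emb.of4 hT hxy hxz hxw hyz hyw hzw n1 n2 n3 n4 n5 n6 e1.1 ?_ (fun _ => h4)
    (fun _ => h5) e2.1 ?_ (fun _ => h6) (fun _ => h7) (fun _ => h8) (fun _ => h9) e3.1 ?_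
  · intro h
    exact h1.resolve_left fun h' => hT.asymm _ _ h (e1.2 h')
  · intro h
    exact h2.resolve_left fun h' => hT.asymm _ _ h (e2.2 h')
  · intro h
    exact h3.resolve_left fun h' => hT.asymm _ _ h (e3.2 h')

end Pool.Agent.TDK
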