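import Pool.Agent.TDK.Basic

set_option autoImplicit false
set_option linter.unusedSectionVars false
set_option linter.unusedSimpArgs false

namespace Pool.Agent.TDK

open Finset

variable {V : Type*} [Fintype V] [DecidableEq V] {m : V → V → ℕ} {χ : V → Bool}

/-- Vertices of inner degree at least two. -/
def Inn2 (m : V → V → ℕ) (χ : V → Bool) : Finset V := univ.filter (fun x => 2 ≤ inn m χ x)

open Classical in
/-- Vertices on double edges inside the classes. -/
noncomputable def Db (m : V → V → ℕ) (χ : V → Bool) : Finset V :=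
  univ.filter (fun x => ∃ y, χ y = χ x ∧ 2 ≤ m x y)

/-- Secondary potential. -/
noncomputable def Phi (m : V → V → ℕ) (χ : V → Bool) : ℕ := (Inn2 m χ).card + (Db m χ).card

structure Opt (m : V → V → ℕ) (χ : V → Bool) : Prop where
  bal : Bal χ
  cut : ∀ a b, χ a ≠ χ b → inn m χ a + inn m χ b + 2 * m a b ≤ out m χ a + out m χ b
  phi : ∀ a b, χ a ≠ χ b → inn m χ a + inn m χ b + 2 * m a b = out m χ a + out m χ b →
    Phi m χ ≤ Phi m (sw χ a b)

theorem exists_bal (heven : Even (Fintype.card V)) : ∃ χ : V → Bool, Bal χ := by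
  obtain ⟨k, hk⟩ := heven
  obtain ⟨S, _, hS⟩ := Finset.exists_subset_card_eq (s := (univ : Finset V)) (n := k)
    (by rw [Finset.card_univ]; omega)
  refine ⟨fun x => decide (x ∈ S), ?_⟩
  unfold Bal
  have h1 : (univ.filter (fun x => decide (x ∈ S) = true)) = S := by
    ext x; simp
  have h2 : (univ.filter (fun x => decide (x ∈ S) = false)) = Sᶜ := by
    ext x; simp
  rw [h1, h2, Finset.card_compl, hS]
  omega

theorem exists_opt (hm : MG m) (heven : Even (Fintype.card V)) : ∃ χ : V → Bool, Opt m χ := by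
  classical
  obtain ⟨χ0, h0⟩ := exists_bal (V := V) heven
  obtain ⟨χ, hχ, hmin⟩ := Finset.exists_min_image ((univ : Finset (V → Bool)).filter Bal)
    (fun χ => E m χ * (2 * Fintype.card V + 1) + Phi m χ) ⟨χ0, by simp [h0]⟩
  have hbal : Bal χ := by simpa using hχ
  have hPhi : ∀ χ' : V → Bool, Phi m χ' ≤ 2 * Fintype.card V := by
    intro χ'
    unfold Phi
    have h1 := Finset.card_le_univ (Inn2 m χ')
    have h2 := Finset.card_le_univ (Db m χ')
    omega
  have hmin' : ∀ a b, E m χ * (2 * Fintype.card V + 1) + Phi m χ ≤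
      E m (sw χ a b) * (2 * Fintype.card V + 1) + Phi m (sw χ a b) := by
    intro a b
    exact hmin (sw χ a b) (by simpa using hbal.sw a b)
  refine ⟨χ, hbal, ?_, ?_⟩
  · intro a b hab
    by_contra hcon
    push Not at hcon
    have h1 := E_sw hm hab
    have h2 : E m (sw χ a b) + 1 ≤ E m χ := by omega
    have h3 := hmin' a b
    have h4 := hPhi (sw χ a b)
    have h5 := Nat.mul_le_mul_right (2 * Fintype.card V + 1) h2
    rw [Nat.add_mul] at h5
    omega
  · intro a b hab heq
    have h1 := E_sw hm hab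
    have h2 : E m (sw χ a b) = E m χ := by omega
    have h3 := hmin' a b
    rw [h2] at h3
    omega

theorem cut_inner (hm : MG m) (ho : Opt m χ) {a b : V} (ha : 2 ≤ inn m χ a)
    (hab : χ a ≠ χ b) : inn m χ b + 1 + 2 * m a b ≤ out m χ b := by
  have h1 := ho.cut a b hab
  have h2 := inn_add_out m χ a
  have h3 := hm.deg a
  omega

theorem out_eq_of_eq {x : V} {c : Bool} (h : χ x = c) :
    out m χ x = ∑ y ∈ univ.filter (fun y => χ y ≠ c), m x y := by
  unfold out
  rw [Finset.sum_filter]
  refine Finset.sum_congr rfl fun y _ => ?_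
  subst h
  by_cases hy : χ y = χ x <;> simp [hy]

theorem out_eq_of_ne {x : V} {c : Bool} (h : χ x ≠ c) :
    out m χ x = ∑ y ∈ univ.filter (fun y => χ y = c), m x y := by
  unfold out
  rw [Finset.sum_filter]
  refine Finset.sum_congr rfl fun y _ => ?_
  have : χ y = c ↔ ¬ χ y = χ x := by
    revert h
    cases χ y <;> cases χ x <;> cases c <;> simp
  by_cases hy : χ y = χ x
  · rw [if_pos hy, if_neg (fun h' => this.1 h' hy)]
  · rw [if_neg hy, if_pos (this.2 hy)]

theorem cut_symm (hm : MG m) (χ : V → Bool) (c : Bool) :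
    ∑ x ∈ univ.filter (fun x => χ x = c), out m χ x =
      ∑ x ∈ univ.filter (fun x => χ x ≠ c), out m χ x := by
  have h1 : ∑ x ∈ univ.filter (fun x => χ x = c), out m χ x =
      ∑ x ∈ univ.filter (fun x => χ x = c), ∑ y ∈ univ.filter (fun y => χ y ≠ c), m x y := by
    refine Finset.sum_congr rfl fun x hx => ?_
    rw [Finset.mem_filter] at hx
    exact out_eq_of_eq hx.2
  have h2 : ∑ x ∈ univ.filter (fun x => χ x ≠ c), out m χ x =
      ∑ x ∈ univ.filter (fun x => χ x ≠ c), ∑ y ∈ univ.filter (fun y => χ y = c), m x y := by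
    refine Finset.sum_congr rfl fun x hx => ?_
    rw [Finset.mem_filter] at hx
    exact out_eq_of_ne hx.2
  rw [h1, h2, Finset.sum_comm]
  refine Finset.sum_congr rfl fun x _ => Finset.sum_congr rfl fun y _ => hm.symm _ _

theorem out_le_three (hm : MG m) (x : V) : out m χ x ≤ 3 := by
  have := inn_add_out m χ x
  have := hm.deg x
  omega

theorem inn_le_two (hm : MG m) (ho : Opt m χ) (a : V) : inn m χ a ≤ 2 := by
  by_contra hcon
  push Not at hcon
  have h1 := inn_add_out m χ a
  have h2 := hm.deg a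
  have h3 : out m χ a = 0 := by omega
  have hB : ∀ b, χ b ≠ χ a → out m χ b = 3 := by
    intro b hb
    have := ho.cut a b hb.symm
    have := inn_add_out m χ b
    have := hm.deg b
    omega
  have hs := cut_symm hm χ (χ a)
  have e1 : ∑ x ∈ univ.filter (fun x => χ x ≠ χ a), out m χ x =
      (univ.filter (fun x => χ x ≠ χ a)).card * 3 := by
    rw [Finset.sum_congr rfl (fun x hx => hB x (by simpa using hx))]
    simp
  have hmem : a ∈ univ.filter (fun x => χ x = χ a) := by simp
  have e2 : ∑ x ∈ univ.filter (fun x => χ x = χ a), out m χ x ≤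
      ((univ.filter (fun x => χ x = χ a)).card - 1) * 3 := by
    rw [← Finset.add_sum_erase _ _ hmem, h3, zero_add, ← Finset.card_erase_of_mem hmem]
    exact Finset.sum_le_card_nsmul _ _ 3 fun x _ => out_le_three hm x
  have hc := ho.bal.eq (χ a)
  have hpos : 0 < (univ.filter (fun x => χ x = χ a)).card := Finset.card_pos.2 ⟨a, hmem⟩
  omega

theorem deg_sum (hdef : ∀ x y, x ≠ y → dg m x ≤ 2 → dg m y ≤ 2 → False) (S : Finset V) :
    3 * S.card ≤ ∑ x ∈ S, dg m x + 3 := by
  by_cases h : ∃ x0 ∈ S, dg m x0 ≤ 2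
  · obtain ⟨x0, hx0, hd⟩ := h
    have h1 : (S.erase x0).card * 3 ≤ ∑ x ∈ S.erase x0, dg m x := by
      refine Finset.card_nsmul_le_sum _ _ 3 fun x hx => ?_
      rw [Finset.mem_erase] at hx
      by_contra hc
      push Not at hc
      exact hdef x x0 hx.1 (by omega) hd
    rw [← Finset.add_sum_erase _ _ hx0]
    rw [Finset.card_erase_of_mem hx0] at h1
    omega
  · push Not at h
    have h1 : S.card * 3 ≤ ∑ x ∈ S, dg m x :=
      Finset.card_nsmul_le_sum _ _ 3 fun x hx => h x hx
    omega

theorem count (hm : MG m) (hb : Bal χ)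
    (hdef : ∀ x y, x ≠ y → dg m x ≤ 2 → dg m y ≤ 2 → False) (c : Bool) :
    ∑ x ∈ univ.filter (fun x => χ x = c), inn m χ x ≤
      ∑ x ∈ univ.filter (fun x => χ x ≠ c), inn m χ x + 3 := by
  have h1 : ∑ x ∈ univ.filter (fun x => χ x = c), inn m χ x +
      ∑ x ∈ univ.filter (fun x => χ x = c), out m χ x ≤
      (univ.filter (fun x => χ x = c)).card * 3 := by
    rw [← Finset.sum_add_distrib]
    refine Finset.sum_le_card_nsmul _ _ 3 fun x _ => ?_
    rw [inn_add_out]
    exact hm.deg x
  have h2 := deg_sum hdef (univ.filter (fun x => χ x ≠ c))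
  have h3 : ∑ x ∈ univ.filter (fun x => χ x ≠ c), dg m x =
      ∑ x ∈ univ.filter (fun x => χ x ≠ c), inn m χ x +
      ∑ x ∈ univ.filter (fun x => χ x ≠ c), out m χ x := by
    rw [← Finset.sum_add_distrib]
    exact Finset.sum_congr rfl fun x _ => (inn_add_out m χ x).symm
  have h4 := cut_symm hm χ c
  have h5 := hb.eq c
  omega

/-- Facts about the class opposite to an inner vertex. -/
theorem opp (hm : MG m) (ho : Opt m χ) {a b : V} (ha : 2 ≤ inn m χ a) (hb : χ b ≠ χ a)
    (hb1 : inn m χ b = 1) : out m χ b = 2 ∧ m a b = 0 := by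
  have h1 := cut_inner hm ho ha hb.symm
  have h2 := inn_add_out m χ b
  have h3 := hm.deg b
  constructor <;> omega

theorem exists_B1A0 (hm : MG m) (ho : Opt m χ)
    (hdef : ∀ x y, x ≠ y → dg m x ≤ 2 → dg m y ≤ 2 → False) {a a' : V}
    (ha : 2 ≤ inn m χ a) (ha' : 2 ≤ inn m χ a') (haa : a ≠ a') (hχ : χ a' = χ a) :
    ∃ b u, χ b ≠ χ a ∧ inn m χ b = 1 ∧ χ u = χ a ∧ inn m χ u = 0 ∧ 1 ≤ m b u := by
  by_contra hcon
  push Not at hcon
  have hcount := count hm ho.bal hdef (χ a)
  set A1 := univ.filter (fun x => χ x = χ a ∧ inn m χ x = 1) with hA1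
  set B1 := univ.filter (fun x => χ x ≠ χ a ∧ inn m χ x = 1) with hB1
  have e1 : A1.card + 4 ≤ ∑ x ∈ univ.filter (fun x => χ x = χ a), inn m χ x := by
    have : ∑ x ∈ univ.filter (fun x => χ x = χ a),
        ((if inn m χ x = 1 then 1 else 0) + (if x = a then 2 else 0) + (if x = a' then 2 else 0)) ≤
        ∑ x ∈ univ.filter (fun x => χ x = χ a), inn m χ x := by
      refine Finset.sum_le_sum fun x _ => ?_
      by_cases h1 : x = a
      · subst h1
        have : inn m χ x ≠ 1 := by omega
        simp [haa, this]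
        exact ha
      · by_cases h2 : x = a'
        · subst h2
          have : inn m χ x ≠ 1 := by omega
          simp [h1, this]
          exact ha'
        · by_cases h3 : inn m χ x = 1 <;> simp [h1, h2, h3]
    refine le_trans ?_ this
    rw [Finset.sum_add_distrib, Finset.sum_add_distrib, Finset.sum_ite_eq', Finset.sum_ite_eq']
    rw [if_pos (by simp), if_pos (by simp [hχ]), ← Finset.sum_filter, Finset.filter_filter]
    simp [hA1]
  have e2 : ∑ x ∈ univ.filter (fun x => χ x ≠ χ a), inn m χ x ≤ B1.card := by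
    have : ∑ x ∈ univ.filter (fun x => χ x ≠ χ a), inn m χ x ≤
        ∑ x ∈ univ.filter (fun x => χ x ≠ χ a), (if inn m χ x = 1 then 1 else 0) := by
      refine Finset.sum_le_sum fun x hx => ?_
      have hx' : χ x ≠ χ a := by simpa using hx
      have h1 := cut_inner hm ho ha hx'.symm
      have h2 := inn_add_out m χ x
      have h3 := hm.deg x
      split_ifs <;> omega
    refine this.trans ?_
    rw [← Finset.sum_filter, Finset.filter_filter]
    simp [hB1]
  have e3 : ∑ b ∈ B1, 2 ≤ ∑ b ∈ B1, ∑ x ∈ A1, m b x := by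
    refine Finset.sum_le_sum fun b hb => ?_
    rw [hB1, Finset.mem_filter] at hb
    obtain ⟨hout, _⟩ := opp hm ho ha hb.2.1 hb.2.2
    rw [out_eq_of_ne hb.2.1] at hout
    rw [← hout]
    refine le_of_eq (Finset.sum_subset ?_ ?_).symm
    · intro x hx
      rw [hA1, Finset.mem_filter] at hx
      simp [hx.2.1]
    · intro x hx hx1
      have hxa : χ x = χ a := by simpa using hx
      have hx2 : inn m χ x ≠ 1 := by
        intro h
        exact hx1 (by rw [hA1, Finset.mem_filter]; exact ⟨Finset.mem_univ _, hxa, h⟩)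
      rcases Nat.lt_or_ge (inn m χ x) 2 with h | h
      · have := hcon b x hb.2.1 hb.2.2 hxa (by omega)
        omega
      · have := (opp hm ho h (by rw [hxa]; exact hb.2.1) hb.2.2).2
        rw [hm.symm b x]
        exact this
  have e4 : ∑ b ∈ B1, ∑ x ∈ A1, m b x ≤ ∑ x ∈ A1, 2 := by
    rw [Finset.sum_comm]
    refine Finset.sum_le_sum fun x hx => ?_
    rw [hA1, Finset.mem_filter] at hx
    have h1 : ∑ b ∈ B1, m b x ≤ out m χ x := by
      rw [out_eq_of_eq hx.2.1]
      have : ∑ b ∈ B1, m b x = ∑ b ∈ B1, m x b := Finset.sum_congr rfl fun b _ => hm.symm _ _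
      rw [this]
      refine Finset.sum_le_sum_of_subset ?_
      intro b hb
      rw [hB1, Finset.mem_filter] at hb
      simpa using hb.2.1
    have h2 := inn_add_out m χ x
    have h3 := hm.deg x
    have h4 := hx.2.2
    omega
  simp only [Finset.sum_const, smul_eq_mul] at e3 e4
  omega

theorem exists_v (hm : MG m) (ho : Opt m χ) {a b u : V} (ha : 2 ≤ inn m χ a)
    (hb : χ b ≠ χ a) (hb1 : inn m χ b = 1) (hu : χ u = χ a) (hbu : m b u = 1) :
    ∃ v, χ v = χ a ∧ v ≠ u ∧ m b v = 1 := by
  obtain ⟨hout, _⟩ := opp hm ho ha hb hb1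
  rw [out_eq_of_ne hb] at hout
  have hmem : u ∈ univ.filter (fun y => χ y = χ a) := by simp [hu]
  rw [← Finset.add_sum_erase _ _ hmem, hbu] at hout
  have h1 : ∑ x ∈ (univ.filter (fun y => χ y = χ a)).erase u, m b x ≠ 0 := by omega
  obtain ⟨v, hv, hv0⟩ := Finset.exists_ne_zero_of_sum_ne_zero h1
  have h2 := Finset.single_le_sum (f := fun x => m b x) (fun _ _ => Nat.zero_le _) hv
  rw [Finset.mem_erase, Finset.mem_filter] at hv
  refine ⟨v, hv.2.2, hv.1, ?_⟩
  omega

theorem exists_good (hm : MG m) (ho : Opt m χ)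
    (hdef : ∀ x y, x ≠ y → dg m x ≤ 2 → dg m y ≤ 2 → False)
    (hT3 : ∀ b u, m b u = 2 → ∃ w, m b w = 1 ∧ m u w = 1) {a a' : V}
    (ha : 2 ≤ inn m χ a) (ha' : 2 ≤ inn m χ a') (haa : a ≠ a') (hχ : χ a' = χ a) :
    ∃ b u v, χ b ≠ χ a ∧ inn m χ b = 1 ∧ χ u = χ a ∧ inn m χ u = 0 ∧ m b u = 1 ∧
      χ v = χ a ∧ v ≠ u ∧ m b v = 1 := by
  obtain ⟨b, u, hb, hb1, hu, hu0, hbu⟩ := exists_B1A0 hm ho hdef ha ha' haa hχ
  by_cases h1 : m b u = 1
  · obtain ⟨v, hv, hvu, hbv⟩ := exists_v hm ho ha hb hb1 hu h1
    exact ⟨b, u, v, hb, hb1, hu, hu0, h1, hv, hvu, hbv⟩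
  · obtain ⟨hout, _⟩ := opp hm ho ha hb hb1
    have h2 : m b u ≤ out m χ b := m_le_out (by rw [hu]; exact hb.symm)
    obtain ⟨w, hbw, huw⟩ := hT3 b u (by omega)
    have hwu : w ≠ u := by
      rintro rfl
      rw [hm.irr] at huw
      omega
    have hw : χ w ≠ χ a := by
      intro hw
      have h3 := two_le_sum (fun y => if χ y = χ b then 0 else m b y) hwu
      have h4 : χ w ≠ χ b := by rw [hw]; exact hb.symm
      have h5 : χ u ≠ χ b := by rw [hu]; exact hb.symm
      simp only [if_neg h4, if_neg h5] at h3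
      unfold out at hout
      omega
    have hwb : χ b = χ w := by
      revert hw hb
      cases χ w <;> cases χ a <;> cases χ b <;> simp
    have h6 : 1 ≤ inn m χ w := by
      have := m_le_inn (m := m) hwb
      rw [hm.symm w b, hbw] at this
      exact this
    have h7 := cut_inner hm ho ha hw.symm
    have h8 := inn_add_out m χ w
    have h9 := hm.deg w
    have hw1 : inn m χ w = 1 := by omega
    have hwu' : m w u = 1 := by rw [hm.symm w u]; exact huw
    obtain ⟨v, hv, hvu, hbv⟩ := exists_v hm ho ha hw hw1 hu hwu'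
    exact ⟨w, u, v, hw, hw1, hu, hu0, hwu', hv, hvu, hbv⟩

/-- The potential drops when a bad inner vertex is exchanged with a good one. -/
theorem not_bad (hm : MG m) (ho : Opt m χ)
    (hdef : ∀ x y, x ≠ y → dg m x ≤ 2 → dg m y ≤ 2 → False)
    (hT3 : ∀ b u, m b u = 2 → ∃ w, m b w = 1 ∧ m u w = 1) {a : V}
    (ha : inn m χ a = 2) (hbad : ∀ y, χ y = χ a → 1 ≤ m a y → 2 ≤ inn m χ y) : False := by
  -- a neighbour of `a` in its class
  obtain ⟨y₁, hy₁, hay₁⟩ : ∃ y, χ y = χ a ∧ 1 ≤ m a y := by
    by_contra hcon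
    push Not at hcon
    have : inn m χ a = 0 := by
      unfold inn
      refine Finset.sum_eq_zero fun y _ => ?_
      by_cases h : χ y = χ a
      · have := hcon y h
        simp [h]
        omega
      · simp [h]
    omega
  have hay : a ≠ y₁ := by
    rintro rfl
    rw [hm.irr] at hay₁
    omega
  obtain ⟨b, u, v, hb, hb1, hu, hu0, hbu, hv, hvu, hbv⟩ := exists_good hm ho hdef hT3
    ha.ge (hbad y₁ hy₁ hay₁) hay hy₁
  obtain ⟨hob, hab⟩ := opp hm ho ha.ge hb hb1
  have hda := hm.deg a
  have hioa := inn_add_out m χ a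
  have hcut := ho.cut a b hb.symm
  have hoa : out m χ a = 1 := by omega
  have hphi := ho.phi a b hb.symm (by omega)
  -- vertices of the class of `a` adjacent to `b`
  have hbx : ∀ x, χ x = χ a → x ≠ u → x ≠ v → m b x = 0 := by
    intro x hx hxu hxv
    have h3 := three_le_sum (fun y => if χ y = χ b then 0 else m b y) hvu hxv.symm hxu.symm
    have h4 : χ v ≠ χ b := by rw [hv]; exact hb.symm
    have h5 : χ u ≠ χ b := by rw [hu]; exact hb.symm
    have h6 : χ x ≠ χ b := by rw [hx]; exact hb.symm
    simp only [if_neg h4, if_neg h5, if_neg h6] at h3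
    unfold out at hob
    omega
  have ha' := sw_inn_left hm hb.symm
  have hb' := sw_inn_right hm hb.symm
  have hBχ : ∀ x, χ x ≠ χ a → χ x = χ b := by
    intro x
    revert hb
    cases χ x <;> cases χ a <;> cases χ b <;> simp
  have F1 : ∀ x, 2 ≤ inn m (sw χ a b) x → x = b ∨ x = v ∨
      (2 ≤ inn m χ x ∧ x ≠ a ∧ m x a = 0) := by
    intro x hx
    by_cases hxa : x = a
    · subst hxa; omega
    by_cases hxb : x = b
    · exact Or.inl hxb
    by_cases hχ : χ x = χ a
    · have h1 := sw_inn_same (m := m) hb.symm hχ hxa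
      by_cases hxv : x = v
      · exact Or.inr (Or.inl hxv)
      by_cases hxu : x = u
      · subst hxu
        rw [hm.symm x b, hbu, hu0] at h1
        omega
      · have h2 := hbx x hχ hxu hxv
        rw [hm.symm x b, h2] at h1
        have h3 := inn_le_two hm ho x
        exact Or.inr (Or.inr ⟨by omega, hxa, by omega⟩)
    · have h1 := sw_inn_other (m := m) hb.symm (hBχ x hχ) hxb
      have h2 := cut_inner hm ho ha.ge (Ne.symm hχ)
      have h3 := inn_add_out m χ x
      have h4 := hm.deg x
      have h5 : m a x ≤ out m χ a := m_le_out hχ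
      rw [hm.symm x a] at h1
      omega
  have F2 : Db m (sw χ a b) ⊆ (Db m χ).erase a := by
    intro x hx
    unfold Db at hx
    rw [Finset.mem_filter] at hx
    obtain ⟨_, y, hy, hxy⟩ := hx
    have hbz : ∀ z, sw χ a b z = sw χ a b b → ¬ 2 ≤ m b z := by
      intro z hz hz2
      by_cases hza : z = a
      · subst hza
        rw [hm.symm b z] at hz2
        omega
      by_cases hzb : z = b
      · subst hzb
        rw [hm.irr] at hz2
        omega
      rw [sw_of_ne χ hza hzb, sw_right] at hz
      by_cases hzu : z = u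
      · subst hzu; omega
      by_cases hzv : z = v
      · subst hzv; omega
      have := hbx z hz hzu hzv
      omega
    have haz : ∀ z, sw χ a b z = sw χ a b a → ¬ 2 ≤ m a z := by
      intro z hz hz2
      have := m_le_inn (m := m) hz
      omega
    have hxa : x ≠ a := by
      rintro rfl
      exact haz y hy hxy
    have hxb : x ≠ b := by
      rintro rfl
      exact hbz y hy hxy
    have hya : y ≠ a := by
      rintro rfl
      exact haz x hy.symm (by rw [hm.symm]; exact hxy)
    have hyb : y ≠ b := by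
      rintro rfl
      exact hbz x hy.symm (by rw [hm.symm]; exact hxy)
    rw [sw_of_ne χ hxa hxb, sw_of_ne χ hya hyb] at hy
    rw [Finset.mem_erase]
    refine ⟨hxa, ?_⟩
    unfold Db
    rw [Finset.mem_filter]
    exact ⟨Finset.mem_univ _, y, hy, hxy⟩
  have haI : a ∈ Inn2 m χ := by
    unfold Inn2
    rw [Finset.mem_filter]
    exact ⟨Finset.mem_univ _, ha.ge⟩
  have hcardD := Finset.card_le_card F2
  have hIns : ∀ S : Finset V, (insert b (insert v S)).card ≤ S.card + 2 := by
    intro S
    have h1 := Finset.card_insert_le b (insert v S)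
    have h2 := Finset.card_insert_le v S
    omega
  by_cases hdb : ∃ y, χ y = χ a ∧ 2 ≤ m a y
  · obtain ⟨y, hy, hay2⟩ := hdb
    have hyI : y ∈ Inn2 m χ := by
      unfold Inn2
      rw [Finset.mem_filter]
      refine ⟨Finset.mem_univ _, ?_⟩
      have := m_le_inn (m := m) hy.symm
      rw [hm.symm y a] at this
      omega
    have hya : y ≠ a := by
      rintro rfl
      rw [hm.irr] at hay2
      omega
    have haD : a ∈ Db m χ := by
      unfold Db
      rw [Finset.mem_filter]
      exact ⟨Finset.mem_univ _, y, hy, hay2⟩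
    have hsub : Inn2 m (sw χ a b) ⊆ insert b (insert v (((Inn2 m χ).erase a).erase y)) := by
      intro x hx
      unfold Inn2 at hx
      rw [Finset.mem_filter] at hx
      rcases F1 x hx.2 with h | h | ⟨h1, h2, h3⟩
      · rw [h]; exact Finset.mem_insert_self _ _
      · rw [h]; exact Finset.mem_insert_of_mem (Finset.mem_insert_self _ _)
      · refine Finset.mem_insert_of_mem (Finset.mem_insert_of_mem ?_)
        rw [Finset.mem_erase, Finset.mem_erase]
        refine ⟨?_, h2, ?_⟩
        · rintro rfl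
          rw [hm.symm x a] at h3
          omega
        · unfold Inn2
          rw [Finset.mem_filter]
          exact ⟨Finset.mem_univ _, h1⟩
    have h1 := (Finset.card_le_card hsub).trans (hIns _)
    rw [Finset.card_erase_of_mem (Finset.mem_erase.2 ⟨hya, hyI⟩),
      Finset.card_erase_of_mem haI] at h1
    rw [Finset.card_erase_of_mem haD] at hcardD
    have h2 : 0 < (Db m χ).card := Finset.card_pos.2 ⟨a, haD⟩
    have h3 : 2 ≤ (Inn2 m χ).card := by
      have : ({y, a} : Finset V) ⊆ Inn2 m χ := by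
        intro x hx
        rw [Finset.mem_insert, Finset.mem_singleton] at hx
        rcases hx with h | h
        · rw [h]; exact hyI
        · rw [h]; exact haI
      have h4 := Finset.card_le_card this
      rwa [Finset.card_pair hya] at h4
    unfold Phi at hphi
    omega
  · push Not at hdb
    have hm1 : m a y₁ = 1 := by
      have := hdb y₁ hy₁
      omega
    obtain ⟨y₂, hy₂, hay₂, hne⟩ : ∃ y, χ y = χ a ∧ 1 ≤ m a y ∧ y ≠ y₁ := by
      by_contra hcon
      push Not at hcon
      have : inn m χ a ≤ 1 := by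
        unfold inn
        rw [Finset.sum_eq_single y₁]
        · simp [hy₁, hm1]
        · intro y _ hyy
          by_cases h : χ y = χ a
          · rw [if_pos h]
            by_contra h0
            exact hyy (hcon y h (by omega))
          · rw [if_neg h]
        · intro h; exact absurd (Finset.mem_univ _) h
      omega
    have hyI : ∀ y, χ y = χ a → 1 ≤ m a y → y ∈ Inn2 m χ := by
      intro y h1 h2
      unfold Inn2
      rw [Finset.mem_filter]
      exact ⟨Finset.mem_univ _, hbad y h1 h2⟩
    have hay2 : y₂ ≠ a := by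
      rintro rfl
      rw [hm.irr] at hay₂
      omega
    have hsub : Inn2 m (sw χ a b) ⊆
        insert b (insert v ((((Inn2 m χ).erase a).erase y₁).erase y₂)) := by
      intro x hx
      unfold Inn2 at hx
      rw [Finset.mem_filter] at hx
      rcases F1 x hx.2 with h | h | ⟨h1, h2, h3⟩
      · rw [h]; exact Finset.mem_insert_self _ _
      · rw [h]; exact Finset.mem_insert_of_mem (Finset.mem_insert_self _ _)
      · refine Finset.mem_insert_of_mem (Finset.mem_insert_of_mem ?_)
        rw [Finset.mem_erase, Finset.mem_erase, Finset.mem_erase]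
        refine ⟨?_, ?_, h2, ?_⟩
        · rintro rfl
          rw [hm.symm x a] at h3
          omega
        · rintro rfl
          rw [hm.symm x a] at h3
          omega
        · unfold Inn2
          rw [Finset.mem_filter]
          exact ⟨Finset.mem_univ _, h1⟩
    have h1 := (Finset.card_le_card hsub).trans (hIns _)
    have k1 : y₁ ∈ (Inn2 m χ).erase a := Finset.mem_erase.2 ⟨hay.symm, hyI y₁ hy₁ hay₁⟩
    have k2 : y₂ ∈ ((Inn2 m χ).erase a).erase y₁ :=
      Finset.mem_erase.2 ⟨hne, Finset.mem_erase.2 ⟨hay2, hyI y₂ hy₂ hay₂⟩⟩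
    have c1 := Finset.card_erase_of_mem haI
    have c2 := Finset.card_erase_of_mem k1
    have c3 := Finset.card_erase_of_mem k2
    have p1 : 0 < (Inn2 m χ).card := Finset.card_pos.2 ⟨a, haI⟩
    have p2 : 0 < ((Inn2 m χ).erase a).card := Finset.card_pos.2 ⟨_, k1⟩
    have p3 : 0 < (((Inn2 m χ).erase a).erase y₁).card := Finset.card_pos.2 ⟨_, k2⟩
    have hD : (Db m (sw χ a b)).card ≤ (Db m χ).card :=
      hcardD.trans (Finset.card_le_card (Finset.erase_subset _ _))
    unfold Phi at hphi
    omega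

/-- Six vertices: no vertex of inner degree two. -/
theorem six (hm : MG m) (ho : Opt m χ)
    (hdef : ∀ x y, x ≠ y → dg m x ≤ 2 → dg m y ≤ 2 → False)
    (h6 : Fintype.card V = 6) (a : V) : inn m χ a ≤ 1 := by
  by_contra hcon
  push Not at hcon
  have ha : 2 ≤ inn m χ a := hcon
  set A := univ.filter (fun x => χ x = χ a) with hA
  set B := univ.filter (fun x => χ x ≠ χ a) with hB
  have hAB : A.card = B.card := ho.bal.eq (χ a)
  have hABs : A.card + B.card = 6 := by
    have := Finset.card_filter_add_card_filter_not (s := (univ : Finset V)) (fun x => χ x = χ a)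
    rw [Finset.card_univ, h6] at this
    exact this
  have hcount := count hm ho.bal hdef (χ a)
  have haA : a ∈ A := by simp [hA]
  have h4 : 4 ≤ ∑ x ∈ A, inn m χ x := by
    rw [← Finset.add_sum_erase _ _ haA]
    have h1 : inn m χ a ≤ ∑ x ∈ A.erase a, inn m χ x := by
      have h2 : inn m χ a = ∑ x ∈ A.erase a, m a x := by
        unfold inn
        rw [← Finset.sum_filter, ← hA, ← Finset.add_sum_erase _ _ haA, hm.irr, zero_add]
      rw [h2]
      refine Finset.sum_le_sum fun x hx => ?_
      rw [Finset.mem_erase, hA, Finset.mem_filter] at hx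
      rw [hm.symm a x]
      exact m_le_inn hx.2.2.symm
    omega
  rw [← hA, ← hB] at hcount
  have hB1 : ∑ x ∈ B, inn m χ x ≠ 0 := by omega
  obtain ⟨b, hb, hb0⟩ := Finset.exists_ne_zero_of_sum_ne_zero hB1
  rw [hB, Finset.mem_filter] at hb
  have hbB : ∀ x, χ x ≠ χ a → inn m χ x + 1 + 2 * m a x ≤ out m χ x :=
    fun x hx => cut_inner hm ho ha hx.symm
  have hBχ : ∀ x, χ x ≠ χ a → χ x = χ b := by
    intro x
    have := hb.2
    revert this
    cases χ x <;> cases χ a <;> cases χ b <;> simp
  have hdeg : ∀ x, inn m χ x + out m χ x ≤ 3 := by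
    intro x
    rw [inn_add_out]
    exact hm.deg x
  have hb1 : inn m χ b = 1 := by
    have := hbB b hb.2
    have := hdeg b
    omega
  -- the partner of b
  obtain ⟨b', hb', hbb'⟩ : ∃ y, χ y = χ b ∧ 1 ≤ m b y := by
    by_contra hc
    push Not at hc
    have : inn m χ b = 0 := by
      unfold inn
      refine Finset.sum_eq_zero fun y _ => ?_
      by_cases h : χ y = χ b
      · have := hc y h
        simp [h]
        omega
      · simp [h]
    omega
  have hb'a : χ b' ≠ χ a := by rw [hb']; exact hb.2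
  have hb'1 : inn m χ b' = 1 := by
    have h1 := hbB b' hb'a
    have h2 := hdeg b'
    have h3 := m_le_inn (m := m) hb'.symm
    rw [hm.symm b' b] at h3
    omega
  have hcuta := ho.cut a b hb.2.symm
  have hob := hbB b hb.2
  have hdb := hdeg b
  have hoa : 1 ≤ out m χ a := by omega
  obtain ⟨c, hc, hac⟩ : ∃ y, χ y ≠ χ a ∧ 1 ≤ m a y := by
    by_contra hc
    push Not at hc
    have : out m χ a = 0 := by
      unfold out
      refine Finset.sum_eq_zero fun y _ => ?_
      by_cases h : χ y = χ a
      · simp [h]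
      · have := hc y h
        rw [if_neg h]
        omega
    omega
  have hc1 := hbB c hc
  have hdc := hdeg c
  have hob' := hbB b' hb'a
  have hdb' := hdeg b'
  have hne1 : b ≠ b' := by
    rintro rfl
    rw [hm.irr] at hbb'
    omega
  have hne2 : b ≠ c := by
    rintro rfl
    omega
  have hne3 : b' ≠ c := by
    rintro rfl
    omega
  have hBeq : ({b, b', c} : Finset V) = B := by
    refine Finset.eq_of_subset_of_card_le ?_ ?_
    · intro x hx
      rw [Finset.mem_insert, Finset.mem_insert, Finset.mem_singleton] at hx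
      rw [hB, Finset.mem_filter]
      rcases hx with h | h | h
      · rw [h]; exact ⟨Finset.mem_univ _, hb.2⟩
      · rw [h]; exact ⟨Finset.mem_univ _, hb'a⟩
      · rw [h]; exact ⟨Finset.mem_univ _, hc⟩
    · rw [Finset.card_insert_of_notMem (by simp [hne1, hne2]), Finset.card_pair hne3]
      omega
  have hcs := cut_symm hm χ (χ a)
  rw [← hA, ← hB] at hcs
  have hsumB : ∑ x ∈ B, out m χ x = 7 := by
    rw [← hBeq, Finset.sum_insert (by simp [hne1, hne2]), Finset.sum_pair hne3]
    omega
  have hsumA : ∑ x ∈ A, inn m χ x + ∑ x ∈ A, out m χ x ≤ A.card * 3 := by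
    rw [← Finset.sum_add_distrib]
    exact Finset.sum_le_card_nsmul _ _ 3 fun x _ => hdeg x
  omega

theorem good_of_opt (hm : MG m) (ho : Opt m χ)
    (hdef : ∀ x y, x ≠ y → dg m x ≤ 2 → dg m y ≤ 2 → False)
    (hT3 : ∀ b u, m b u = 2 → ∃ w, m b w = 1 ∧ m u w = 1) : Good m χ := by
  have hsimple : ∀ x y, χ y = χ x → m x y ≤ 1 := by
    intro x y hxy
    by_contra hcon
    push Not at hcon
    have h1 := m_le_inn (m := m) hxy
    have h2 := inn_le_two hm ho x
    refine not_bad hm ho hdef hT3 (a := x) (by omega) ?_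
    intro z hz hxz
    by_cases hzy : z = y
    · subst hzy
      have := m_le_inn (m := m) hz.symm
      rw [hm.symm z x] at this
      omega
    · exfalso
      have h3 := two_le_sum (fun w => if χ w = χ x then m x w else 0) hzy
      simp only [if_pos hxy, if_pos hz] at h3
      unfold inn at h2
      omega
  refine ⟨hsimple, inn_le_two hm ho, ?_, fun h6 x => six hm ho hdef h6 x⟩
  intro x hx
  by_contra hcon
  push Not at hcon
  refine not_bad hm ho hdef hT3 hx ?_
  intro y hy hxy
  have h1 := hsimple x y hy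
  have h2 := hcon y hy (by omega)
  have h3 := m_le_inn (m := m) hy.symm
  rw [hm.symm y x] at h3
  omega

/-- The main case. -/
theorem main_case (hm : MG m) (heven : Even (Fintype.card V))
    (hdef : ∀ x y, x ≠ y → dg m x ≤ 2 → dg m y ≤ 2 → False)
    (hT3 : ∀ b u, m b u = 2 → ∃ w, m b w = 1 ∧ m u w = 1) : ∃ χ, Bal χ ∧ Good m χ := by
  obtain ⟨χ, hχ⟩ := exists_opt hm heven
  exact ⟨χ, hχ.bal, good_of_opt hm hχ hdef hT3⟩

end Pool.Agent.TDK
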