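import Pool.Agent.TDK.Main

set_option autoImplicit false
set_option linter.unusedSectionVars false
set_option linter.unusedSimpArgs false

namespace Pool.Agent.TDK

open Finset

variable {V : Type*} [Fintype V] [DecidableEq V] {m m' : V → V → ℕ} {χ : V → Bool}

theorem inn_mono (h : ∀ p q, m p q ≤ m' p q) (x : V) : inn m χ x ≤ inn m' χ x := by
  unfold inn
  refine Finset.sum_le_sum fun y _ => ?_
  split_ifs
  · exact h x y
  · exact le_rfl

theorem Good.mono (hm : MG m) (h : ∀ p q, m p q ≤ m' p q) (hg : Good m' χ) : Good m χ := by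
  refine ⟨fun x y hxy => (h x y).trans (hg.simple x y hxy), fun x => (inn_mono h x).trans
    (hg.inn_le x), ?_, fun h6 x => (inn_mono h x).trans (hg.six h6 x)⟩
  intro x hx
  have h1 := inn_mono (χ := χ) h x
  have h2 := hg.inn_le x
  have h3 : inn m' χ x = 2 := by omega
  obtain ⟨y, hy, hxy, hy1⟩ := hg.inner x h3
  have h4 : ∀ y ∈ (univ : Finset V), (if χ y = χ x then m x y else 0) =
      (if χ y = χ x then m' x y else 0) := by
    refine (Finset.sum_eq_sum_iff_of_le ?_).1 ?_
    · intro y _
      split_ifs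
      · exact h x y
      · exact le_rfl
    · unfold inn at hx h3
      rw [hx, h3]
  have h5 := h4 y (Finset.mem_univ _)
  rw [if_pos hy, if_pos hy] at h5
  have h6 := inn_mono (χ := χ) h y
  have h7 := m_le_inn (m := m) hy.symm
  rw [hm.symm y x] at h7
  exact ⟨y, hy, by omega, by omega⟩

theorem Good.congr (h : ∀ p q, χ q = χ p → m p q = m' p q) (hg : Good m' χ) : Good m χ := by
  have hi : ∀ x, inn m χ x = inn m' χ x := by
    intro x
    unfold inn
    refine Finset.sum_congr rfl fun y _ => ?_
    by_cases hy : χ y = χ x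
    · rw [if_pos hy, if_pos hy, h x y hy]
    · rw [if_neg hy, if_neg hy]
  refine ⟨fun x y hxy => by rw [h x y hxy]; exact hg.simple x y hxy,
    fun x => by rw [hi]; exact hg.inn_le x, ?_, fun h6 x => by rw [hi]; exact hg.six h6 x⟩
  intro x hx
  rw [hi] at hx
  obtain ⟨y, hy, hxy, hy1⟩ := hg.inner x hx
  exact ⟨y, hy, by rw [h x y hy]; exact hxy, by rw [hi]; exact hy1⟩

/-- Edge indicator. -/
def dl (x y : V) (p q : V) : ℕ := if (p = x ∧ q = y) ∨ (p = y ∧ q = x) then 1 else 0

theorem dl_symm (x y p q : V) : dl x y p q = dl x y q p := by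
  unfold dl
  congr 1
  apply propext
  tauto

theorem dl_self {x y : V} (h : x ≠ y) (p : V) : dl x y p p = 0 := by
  unfold dl
  rw [if_neg]
  rintro (⟨rfl, h1⟩ | ⟨rfl, h1⟩)
  · exact h h1
  · exact h h1.symm

theorem dl_ne {x y p q : V} (h : dl x y p q ≠ 0) : (p = x ∧ q = y) ∨ (p = y ∧ q = x) := by
  unfold dl at h
  by_contra hc
  rw [if_neg hc] at h
  exact h rfl

theorem dl_le (x y p q : V) : dl x y p q ≤ 1 := by
  unfold dl; split_ifs <;> omega

theorem sum_dl {x y : V} (h : x ≠ y) (p : V) :
    ∑ q, dl x y p q = (if p = x then 1 else 0) + (if p = y then 1 else 0) := by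
  unfold dl
  by_cases h1 : p = x
  · subst h1
    simp [h]
  · by_cases h2 : p = y
    · subst h2
      simp [h1, Ne.symm h]
    · simp [h1, h2]

/-- The colouring with `b` and `u` exchanged is good as well if `b u` is a triple edge. -/
theorem Good.swap_triple (hm : MG m) {b u : V} (h3 : m b u = 3) (hg : Good m χ)
    : Good m (sw χ b u) := by
  have hbu : b ≠ u := by
    rintro rfl
    rw [hm.irr] at h3
    omega
  have hχ : χ b ≠ χ u := by
    intro h
    have := hg.simple b u h.symm
    omega
  have hb0 : ∀ q, q ≠ u → m b q = 0 := by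
    intro q hq
    have h1 := two_le_sum (m b) hq.symm
    have h2 := hm.deg b
    unfold dg at h2
    omega
  have hu0 : ∀ q, q ≠ b → m u q = 0 := by
    intro q hq
    have h1 := two_le_sum (m u) hq.symm
    have h2 := hm.deg u
    unfold dg at h2
    rw [hm.symm u b] at h1
    omega
  have hib : ∀ χ' : V → Bool, χ' b ≠ χ' u → inn m χ' b = 0 := by
    intro χ' h
    unfold inn
    refine Finset.sum_eq_zero fun y _ => ?_
    by_cases hy : y = u
    · subst hy
      rw [if_neg h.symm]
    · rw [hb0 y hy]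
      simp
  have hiu : ∀ χ' : V → Bool, χ' b ≠ χ' u → inn m χ' u = 0 := by
    intro χ' h
    unfold inn
    refine Finset.sum_eq_zero fun y _ => ?_
    by_cases hy : y = b
    · subst hy
      rw [if_neg h]
    · rw [hu0 y hy]
      simp
  have hχ' : sw χ b u b ≠ sw χ b u u := by
    rw [sw_left, sw_right]
    exact hχ.symm
  have hi : ∀ x, inn m (sw χ b u) x = inn m χ x := by
    intro x
    by_cases hxb : x = b
    · rw [hxb, hib _ hχ, hib _ hχ']
    by_cases hxu : x = u
    · rw [hxu, hiu _ hχ, hiu _ hχ']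
    have e1 : m x b = 0 := by rw [hm.symm]; exact hb0 x hxu
    have e2 : m x u = 0 := by rw [hm.symm]; exact hu0 x hxb
    by_cases h : χ x = χ b
    · have := sw_inn_same (m := m) hχ h hxb
      omega
    · have h' : χ x = χ u := by
        revert h hχ
        cases χ x <;> cases χ b <;> cases χ u <;> simp
      have := sw_inn_other (m := m) hχ h' hxu
      omega
  have hpair : ∀ p q, sw χ b u q = sw χ b u p → m p q ≠ 0 → p ≠ b ∧ p ≠ u ∧ q ≠ b ∧ q ≠ u := by
    intro p q hpq h0
    refine ⟨?_, ?_, ?_, ?_⟩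
    · rintro rfl
      by_cases hq : q = u
      · subst hq; exact hχ' hpq.symm
      · exact h0 (hb0 q hq)
    · rintro rfl
      by_cases hq : q = b
      · subst hq; exact hχ' hpq
      · exact h0 (hu0 q hq)
    · rintro rfl
      by_cases hp : p = u
      · subst hp; exact hχ' hpq
      · exact h0 (by rw [hm.symm]; exact hb0 p hp)
    · rintro rfl
      by_cases hp : p = b
      · subst hp; exact hχ' hpq.symm
      · exact h0 (by rw [hm.symm]; exact hu0 p hp)
  refine ⟨?_, fun x => by rw [hi]; exact hg.inn_le x, ?_, fun h6 x => by rw [hi]; exact hg.six h6 x⟩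
  · intro x y hxy
    by_cases h0 : m x y = 0
    · omega
    · obtain ⟨h1, h2, h3, h4⟩ := hpair x y hxy h0
      rw [sw_of_ne χ h1 h2, sw_of_ne χ h3 h4] at hxy
      exact hg.simple x y hxy
  · intro x hx
    rw [hi] at hx
    obtain ⟨y, hy, hxy, hy1⟩ := hg.inner x hx
    refine ⟨y, ?_, hxy, by rw [hi]; exact hy1⟩
    have h1 : x ≠ b := by
      rintro rfl
      rw [hib _ hχ] at hx
      omega
    have h2 : x ≠ u := by
      rintro rfl
      rw [hiu _ hχ] at hx
      omega
    have h3 : y ≠ b := by
      rintro rfl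
      rw [hib _ hχ] at hy1
      omega
    have h4 : y ≠ u := by
      rintro rfl
      rw [hiu _ hχ] at hy1
      omega
    rw [sw_of_ne χ h1 h2, sw_of_ne χ h3 h4]
    exact hy

open Classical in
/-- Vertices on triple edges. -/
noncomputable def Tr (m : V → V → ℕ) : Finset V := univ.filter (fun x => ∃ y, m x y = 3)

/-- Measure for the induction. -/
noncomputable def mu (m : V → V → ℕ) : ℕ :=
  (Fintype.card V - (Tr m).card) * (3 * Fintype.card V + 1) +
    (3 * Fintype.card V - ∑ x, dg m x)

theorem sum_dg_le (hm : MG m) : ∑ x, dg m x ≤ 3 * Fintype.card V := by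
  have := Finset.sum_le_card_nsmul (univ : Finset V) (fun x => dg m x) 3 fun x _ => hm.deg x
  rw [Finset.card_univ] at this
  simpa [mul_comm] using this

theorem mu_lt_of_Tr (h : (Tr m).card < (Tr m').card) : mu m' < mu m := by
  unfold mu
  have h1 := Finset.card_le_univ (Tr m')
  have h2 : (Fintype.card V - (Tr m').card) + 1 ≤ Fintype.card V - (Tr m).card := by omega
  have h3 := Nat.mul_le_mul_right (3 * Fintype.card V + 1) h2
  rw [Nat.add_mul] at h3
  omega

theorem mu_lt_of_sum (hm' : MG m') (h : (Tr m).card ≤ (Tr m').card)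
    (hs : ∑ x, dg m x < ∑ x, dg m' x) : mu m' < mu m := by
  unfold mu
  have h2 : (Fintype.card V - (Tr m').card) ≤ Fintype.card V - (Tr m).card := by omega
  have h3 := Nat.mul_le_mul_right (3 * Fintype.card V + 1) h2
  have h4 := sum_dg_le hm'
  omega

theorem Tr_mono (hm' : MG m') (h : ∀ p q, m p q = 3 → 3 ≤ m' p q) : Tr m ⊆ Tr m' := by
  intro x hx
  unfold Tr at hx ⊢
  rw [Finset.mem_filter] at hx ⊢
  obtain ⟨_, y, hy⟩ := hx
  refine ⟨Finset.mem_univ _, y, ?_⟩
  have h1 := h x y hy
  have h2 := Finset.single_le_sum (f := fun z => m' x z) (fun _ _ => Nat.zero_le _)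
    (Finset.mem_univ y)
  have h3 := hm'.deg x
  unfold dg at h3
  omega

end Pool.Agent.TDK
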